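import Pool.Agent.Helper34.LD.WA

/-!
# LD, block GB1: products of averages over the children
-/

open Set MeasureTheory

namespace Pool.Agent.Helper65.LD

open Pool.Agent.Helper41.LD Pool.Agent.Helper34.LD

theorem haar_coarse {K k : ℕ} (hk : k < K) (i : ℕ) {s t : ℝ} (h : ⌊(2 : ℝ) ^ K * s⌋ = ⌊(2 : ℝ) ^ K * t⌋) :
    Pool.Agent.Helper41.LD.haar k i s = Pool.Agent.Helper41.LD.haar k i t := by
  unfold Pool.Agent.Helper41.LD.haar
  rw [ind_congr hk h, ind_congr hk h]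

theorem ii_bd {F : ℝ → ℝ} (hF : Measurable F) (hb : ∀ x, |F x| ≤ 1) (a b : ℝ) : IntervalIntegrable F volume a b :=
  ii_of_bdd hF hb a b

theorem av_le {F : ℝ → ℝ} (hb : ∀ x, |F x| ≤ 1) (a : ℝ) {ℓ : ℝ} (hℓ : 0 < ℓ) : |av F a ℓ| ≤ 1 := by
  rw [av, abs_div, abs_of_pos hℓ, div_le_one hℓ]
  have h := intervalIntegral.norm_integral_le_of_norm_le_const (a := a) (b := a + ℓ) (C := 1) (f := F) (fun x _ => hb x)
  rw [Real.norm_eq_abs, add_sub_cancel_left, abs_of_pos hℓ, one_mul] at h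
  exact h

theorem av_children {F : ℝ → ℝ} (hF : Measurable F) (hb : ∀ x, |F x| ≤ 1) (a : ℝ) {ℓ : ℝ} (hℓ : 0 < ℓ) {B : ℕ} (hB : 1 ≤ B) :
    (∑ b ∈ Finset.range B, av F (a + b * (ℓ / B)) (ℓ / B)) / B = av F a ℓ := by
  have hB0 : (0:ℝ) < B := by exact_mod_cast hB
  unfold av
  rw [← Finset.sum_div]
  have h1 := intervalIntegral.sum_integral_adjacent_intervals (μ := volume)
    (f := F) (a := fun b : ℕ => a + b * (ℓ / B)) (n := B) (fun b _ => ii_bd hF hb _ _)
  have h2 : ∑ b ∈ Finset.range B, ∫ x in (a + b * (ℓ / B))..(a + b * (ℓ / B) + ℓ / B), F x =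
      ∫ x in a..(a + ℓ), F x := by
    have e1 : a + (0:ℕ) * (ℓ / B) = a := by simp
    have e2 : a + B * (ℓ / B) = a + ℓ := by
      rw [mul_div_cancel₀ _ hB0.ne']
    rw [e1, e2] at h1
    rw [← h1]
    refine Finset.sum_congr rfl fun b _ => ?_
    congr 1
    push_cast
    ring
  rw [h2]
  field_simp

open Classical in
/-- few children carry a cell boundary -/
theorem few_bd (w : ℝ → ℝ) (m : ℕ) (a : ℝ) {ℓ : ℝ} (hℓ : 0 < ℓ) (hw : MonotoneOn w (Icc a (a + ℓ))) {B : ℕ} (hB : 1 ≤ B) :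
    (((Finset.range B).filter fun b : ℕ => ⌊(2 : ℝ) ^ m * w (a + b * (ℓ / B))⌋ ≠
      ⌊(2 : ℝ) ^ m * w (a + b * (ℓ / B) + ℓ / B)⌋).card : ℝ) ≤ 2 ^ m * (w (a + ℓ) - w a) + 1 := by
  have hB0 : (0:ℝ) < B := by exact_mod_cast hB
  have h2 : (0 : ℝ) < 2 ^ m := by positivity
  set f : ℕ → ℤ := fun b => ⌊(2 : ℝ) ^ m * w (a + b * (ℓ / B))⌋ with hf
  have hin : ∀ b : ℕ, b ≤ B → a + b * (ℓ / B) ∈ Icc a (a + ℓ) := by
    intro b hb
    have hb' : (b : ℝ) ≤ B := by exact_mod_cast hb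
    constructor
    · have : 0 ≤ (b : ℝ) * (ℓ / B) := by positivity
      linarith
    · have h3 : (b : ℝ) * (ℓ / B) ≤ B * (ℓ / B) := mul_le_mul_of_nonneg_right hb' (by positivity)
      rw [mul_div_cancel₀ _ hB0.ne'] at h3
      linarith
  have hstep : ∀ b : ℕ, a + b * (ℓ / B) + ℓ / B = a + (b + 1 : ℕ) * (ℓ / B) := by
    intro b; push_cast; ring
  have hmono : ∀ b : ℕ, b < B → f b ≤ f (b + 1) := by
    intro b hb
    refine Int.floor_le_floor (mul_le_mul_of_nonneg_left (hw (hin b hb.le) (hin (b + 1) hb) ?_) h2.le)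
    have : 0 ≤ ℓ / B := by positivity
    push_cast
    linarith
  have h3 : ((((Finset.range B).filter fun b : ℕ => ⌊(2 : ℝ) ^ m * w (a + b * (ℓ / B))⌋ ≠
      ⌊(2 : ℝ) ^ m * w (a + b * (ℓ / B) + ℓ / B)⌋).card : ℤ)) ≤ f B - f 0 := by
    rw [← Finset.sum_range_sub f B, Finset.card_filter, Nat.cast_sum]
    refine Finset.sum_le_sum (fun b hb => ?_)
    have hbB := Finset.mem_range.1 hb
    have h4 := hmono b hbB
    split_ifs with h5
    · have h6 : f b ≠ f (b + 1) := by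
        simp only [hf]
        rw [← hstep]
        exact h5
      push_cast
      omega
    · push_cast
      omega
  have h4 : ((((Finset.range B).filter fun b : ℕ => ⌊(2 : ℝ) ^ m * w (a + b * (ℓ / B))⌋ ≠
      ⌊(2 : ℝ) ^ m * w (a + b * (ℓ / B) + ℓ / B)⌋).card : ℝ)) ≤ f B - f 0 := by exact_mod_cast h3
  refine h4.trans ?_
  have h5 : (f B : ℝ) ≤ 2 ^ m * w (a + ℓ) := by
    have := Int.floor_le ((2 : ℝ) ^ m * w (a + B * (ℓ / B)))
    rw [mul_div_cancel₀ _ hB0.ne'] at this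
    simp only [hf]
    rw [mul_div_cancel₀ _ hB0.ne']
    exact this
  have h6 : 2 ^ m * w a - 1 < (f 0 : ℝ) := by
    have := Int.sub_one_lt_floor ((2 : ℝ) ^ m * w a)
    simp only [hf, Nat.cast_zero, zero_mul, add_zero]
    exact this
  linarith

/-- product of averages over the children, general form -/
theorem cov_gen {F w : ℝ → ℝ} (hF : Measurable F) (hF1 : ∀ x, |F x| ≤ 1) (hwm : Measurable w) (k i : ℕ) (a : ℝ) {ℓ : ℝ}
    (hℓ : 0 < ℓ) (hw : MonotoneOn w (Icc a (a + ℓ))) {B : ℕ} (hB : 1 ≤ B) :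
    |(∑ b ∈ Finset.range B, av F (a + b * (ℓ / B)) (ℓ / B) * av (fun x => haar k i (w x)) (a + b * (ℓ / B)) (ℓ / B)) / B -
      av (fun x => F x * haar k i (w x)) a ℓ| ≤ 2 * (2 ^ (k + 1) * (w (a + ℓ) - w a) + 1) / B := by
  classical
  have hB0 : (0:ℝ) < B := by exact_mod_cast hB
  have hℓB : 0 < ℓ / B := by positivity
  have hG : Measurable (fun x => haar k i (w x)) := (measurable_haar k i).comp hwm
  have hG1 : ∀ x, |haar k i (w x)| ≤ 1 := fun x => haar_abs_le k i _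
  have hP : Measurable (fun x => F x * haar k i (w x)) := hF.mul hG
  have hP1 : ∀ x, |F x * haar k i (w x)| ≤ 1 := by
    intro x
    rw [abs_mul]
    calc |F x| * |haar k i (w x)| ≤ 1 * 1 := mul_le_mul (hF1 _) (hG1 _) (abs_nonneg _) zero_le_one
      _ = 1 := one_mul 1
  rw [← av_children hP hP1 a hℓ hB, ← sub_div, ← Finset.sum_sub_distrib, abs_div, abs_of_pos hB0]
  refine div_le_div_of_nonneg_right ?_ hB0.le
  refine (Finset.abs_sum_le_sum_abs _ _).trans ?_
  set S := (Finset.range B).filter fun b : ℕ => ⌊(2 : ℝ) ^ (k + 1) * w (a + b * (ℓ / B))⌋ ≠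
      ⌊(2 : ℝ) ^ (k + 1) * w (a + b * (ℓ / B) + ℓ / B)⌋ with hS
  have hin : ∀ b : ℕ, b < B → Icc (a + b * (ℓ / B)) (a + b * (ℓ / B) + ℓ / B) ⊆ Icc a (a + ℓ) := by
    intro b hb
    have hb' : ((b + 1 : ℕ) : ℝ) ≤ B := by exact_mod_cast hb
    refine Icc_subset_Icc ?_ ?_
    · have : 0 ≤ (b : ℝ) * (ℓ / B) := by positivity
      linarith
    · have h3 : ((b + 1 : ℕ) : ℝ) * (ℓ / B) ≤ B * (ℓ / B) := mul_le_mul_of_nonneg_right hb' (by positivity)
      rw [mul_div_cancel₀ _ hB0.ne'] at h3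
      push_cast at h3
      linarith
  have hb : ∀ b ∈ Finset.range B, |av F (a + b * (ℓ / B)) (ℓ / B) * av (fun x => haar k i (w x)) (a + b * (ℓ / B)) (ℓ / B) -
      av (fun x => F x * haar k i (w x)) (a + b * (ℓ / B)) (ℓ / B)| ≤ if b ∈ S then 2 else 0 := by
    intro b hb
    split_ifs with hbS
    · have h1 := av_le hF1 (a + b * (ℓ / B)) hℓB
      have h2 := av_le hG1 (a + b * (ℓ / B)) hℓB
      have h3 := av_le hP1 (a + b * (ℓ / B)) hℓB
      have h4 := abs_sub (av F (a + b * (ℓ / B)) (ℓ / B) * av (fun x => haar k i (w x)) (a + b * (ℓ / B)) (ℓ / B))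
        (av (fun x => F x * haar k i (w x)) (a + b * (ℓ / B)) (ℓ / B))
      have h5 : |av F (a + b * (ℓ / B)) (ℓ / B) * av (fun x => haar k i (w x)) (a + b * (ℓ / B)) (ℓ / B)| ≤ 1 := by
        rw [abs_mul]
        calc _ ≤ (1 : ℝ) * 1 := mul_le_mul h1 h2 (abs_nonneg _) zero_le_one
          _ = 1 := one_mul 1
      linarith
    · have hbB := Finset.mem_range.1 hb
      have hne : ⌊(2 : ℝ) ^ (k + 1) * w (a + b * (ℓ / B))⌋ = ⌊(2 : ℝ) ^ (k + 1) * w (a + b * (ℓ / B) + ℓ / B)⌋ := by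
        by_contra h
        exact hbS (Finset.mem_filter.2 ⟨hb, h⟩)
      set a' := a + b * (ℓ / B) with ha'
      have hconst : ∀ x ∈ Icc a' (a' + ℓ / B), haar k i (w x) = haar k i (w a') := by
        intro x hx
        refine haar_coarse (K := k + 1) (by omega) i ?_
        have h2 : (0 : ℝ) < 2 ^ (k + 1) := by positivity
        have hx0 : a' ∈ Icc a' (a' + ℓ / B) := ⟨le_rfl, by linarith⟩
        have hx1 : a' + ℓ / B ∈ Icc a' (a' + ℓ / B) := ⟨by linarith, le_rfl⟩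
        have h3 : ⌊(2 : ℝ) ^ (k + 1) * w a'⌋ ≤ ⌊(2 : ℝ) ^ (k + 1) * w x⌋ :=
          Int.floor_le_floor (mul_le_mul_of_nonneg_left (hw (hin b hbB hx0) (hin b hbB hx) hx.1) h2.le)
        have h4 : ⌊(2 : ℝ) ^ (k + 1) * w x⌋ ≤ ⌊(2 : ℝ) ^ (k + 1) * w (a' + ℓ / B)⌋ :=
          Int.floor_le_floor (mul_le_mul_of_nonneg_left (hw (hin b hbB hx) (hin b hbB hx1) hx.2) h2.le)
        omega
      have e1 : av (fun x => haar k i (w x)) a' (ℓ / B) = haar k i (w a') := by
        rw [av]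
        have e : ∫ x in a'..(a' + ℓ / B), haar k i (w x) = ∫ x in a'..(a' + ℓ / B), haar k i (w a') := by
          refine intervalIntegral.integral_congr fun x hx => ?_
          rw [uIcc_of_le (by linarith)] at hx
          exact hconst x hx
        rw [e, intervalIntegral.integral_const, add_sub_cancel_left, smul_eq_mul, mul_div_cancel_left₀ _ hℓB.ne']
      have e2 : av (fun x => F x * haar k i (w x)) a' (ℓ / B) = av F a' (ℓ / B) * haar k i (w a') := by
        rw [av, av]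
        have e : ∫ x in a'..(a' + ℓ / B), F x * haar k i (w x) = ∫ x in a'..(a' + ℓ / B), F x * haar k i (w a') := by
          refine intervalIntegral.integral_congr fun x hx => ?_
          rw [uIcc_of_le (by linarith)] at hx
          simp only [hconst x hx]
        rw [e, intervalIntegral.integral_mul_const]
        ring
      rw [e1, e2, sub_self, abs_zero]
  refine (Finset.sum_le_sum hb).trans ?_
  rw [← Finset.sum_filter, Finset.sum_const, nsmul_eq_mul]
  have h1 : (Finset.range B).filter (fun b => b ∈ S) = S := by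
    ext b
    simp only [hS, Finset.mem_filter]
    tauto
  rw [h1, mul_comm]
  exact mul_le_mul_of_nonneg_left (few_bd w (k + 1) a hℓ hw hB) (by norm_num)

theorem cov_err {θ : ℝ} (hθ : 0 < θ) {c : ℕ → ℝ} (k i k' i' j t : ℕ) (a : ℝ) {ℓ : ℝ} (hℓ : 0 < ℓ) {B : ℕ} (hB : 1 ≤ B) :
    |(∑ b ∈ Finset.range B, A θ c k i j (a + b * (ℓ / B)) (ℓ / B) * A θ c k' i' t (a + b * (ℓ / B)) (ℓ / B)) / B -
      av (fun x => haar k i (u θ c j x) * haar k' i' (u θ c t x)) a ℓ| ≤ 2 * (2 ^ (k' + 1) * θ ^ t * ℓ + 1) / B := by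
  have hm : ∀ j, Measurable (u θ c j) := by
    intro j
    unfold u
    fun_prop
  have h := cov_gen (F := fun x => haar k i (u θ c j x)) (w := u θ c t) ((measurable_haar k i).comp (hm j))
    (fun x => haar_abs_le k i _) (hm t) k' i' a hℓ (fun x _ y _ hxy => by
      unfold u
      have := mul_le_mul_of_nonneg_right hxy (pow_pos hθ t).le
      linarith) hB
  have e : u θ c t (a + ℓ) - u θ c t a = θ ^ t * ℓ := by
    unfold u
    ring
  rw [e, ← mul_assoc] at h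
  exact h

end Pool.Agent.Helper65.LD
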