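import Pool.Agent.Helper65.LD.Count

/-!
# Haar functions of dyadic intervals and the discrepancy
-/

open Finset

namespace Pool.Agent.Helper65.LD

/-- the Haar function of `[k / 2^l, (k+1) / 2^l)`, one-periodic -/
noncomputable def haar (l k : ℕ) (x : ℝ) : ℝ :=
  if ⌊2 ^ (l + 1) * Int.fract x⌋₊ = 2 * k then 1 else if ⌊2 ^ (l + 1) * Int.fract x⌋₊ = 2 * k + 1 then -1 else 0

/-- the number of visits to the dyadic interval `[k / 2^l, (k+1) / 2^l)` -/
noncomputable def cell (u : ℕ → ℝ) (n l k : ℕ) : ℕ :=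
  ((range n).filter (fun j => ⌊2 ^ l * Int.fract (u j)⌋₊ = k)).card

/-- the number of visits to `[0, x)` -/
noncomputable def cnt (u : ℕ → ℝ) (n : ℕ) (x : ℝ) : ℕ :=
  ((range n).filter (fun j => Int.fract (u j) < x)).card

theorem floor_double (l : ℕ) {t : ℝ} (ht : 0 ≤ t) : ⌊2 ^ (l + 1) * t⌋₊ / 2 = ⌊2 ^ l * t⌋₊ := by
  have h1 := Nat.floor_div_natCast (2 ^ (l + 1) * t) 2
  rw [← h1]
  congr 1
  push_cast
  ring

theorem cell_split (u : ℕ → ℝ) (n l k : ℕ) : cell u n l k = cell u n (l + 1) (2 * k) + cell u n (l + 1) (2 * k + 1) := by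
  classical
  have hd : Disjoint ((range n).filter (fun j => ⌊2 ^ (l + 1) * Int.fract (u j)⌋₊ = 2 * k))
      ((range n).filter (fun j => ⌊2 ^ (l + 1) * Int.fract (u j)⌋₊ = 2 * k + 1)) := by
    rw [disjoint_filter]
    intro j _ h1 h2
    omega
  rw [cell, cell, cell, ← card_union_of_disjoint hd, ← filter_or]
  congr 1
  refine filter_congr (fun j _ => ?_)
  have := floor_double l (Int.fract_nonneg (u j))
  constructor
  · intro h; omega
  · rintro (h | h) <;> omega

theorem haar_sum (u : ℕ → ℝ) (n l k : ℕ) :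
    ∑ j ∈ range n, haar l k (u j) = (cell u n (l + 1) (2 * k) : ℝ) - cell u n (l + 1) (2 * k + 1) := by
  classical
  have h1 : ∀ j, haar l k (u j) = (if ⌊2 ^ (l + 1) * Int.fract (u j)⌋₊ = 2 * k then (1 : ℝ) else 0) -
      (if ⌊2 ^ (l + 1) * Int.fract (u j)⌋₊ = 2 * k + 1 then (1 : ℝ) else 0) := by
    intro j
    rw [haar]
    by_cases h : ⌊2 ^ (l + 1) * Int.fract (u j)⌋₊ = 2 * k
    · have h2 : ¬ ⌊2 ^ (l + 1) * Int.fract (u j)⌋₊ = 2 * k + 1 := by omega
      rw [if_pos h, if_pos h, if_neg h2]; ring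
    · rw [if_neg h, if_neg h]
      split_ifs <;> ring
  rw [sum_congr rfl (fun j _ => h1 j), sum_sub_distrib, cell, cell, card_filter, card_filter]
  push_cast
  rfl

/-- all dyadic intervals are visited as they should -/
theorem cell_le (u : ℕ → ℝ) (n s : ℕ) (M : ℝ) (hM0 : 0 ≤ M) (hM : ∀ l < s, ∀ k < 2 ^ l, |∑ j ∈ range n, haar l k (u j)| ≤ M) :
    ∀ l ≤ s, ∀ k < 2 ^ l, |(cell u n l k : ℝ) - n / 2 ^ l| ≤ M := by
  intro l
  induction l with
  | zero =>
    intro _ k hk
    have hk0 : k = 0 := by simpa using hk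
    have h1 : cell u n 0 k = n := by
      rw [cell, hk0]
      rw [filter_true_of_mem]
      · exact card_range n
      · intro j _
        rw [pow_zero, one_mul, Nat.floor_eq_zero]
        exact Int.fract_lt_one _
    rw [h1, pow_zero, div_one, sub_self, abs_zero]
    exact hM0
  | succ l ih =>
    intro hl k hk
    have hk2 : k / 2 < 2 ^ l := by
      rw [pow_succ] at hk
      omega
    have h1 := ih (by omega) (k / 2) hk2
    have h2 := hM l (by omega) (k / 2) hk2
    have h3 := cell_split u n l (k / 2)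
    rw [haar_sum] at h2
    have h4 : (cell u n l (k / 2) : ℝ) = cell u n (l + 1) (2 * (k / 2)) + cell u n (l + 1) (2 * (k / 2) + 1) := by
      exact_mod_cast h3
    rw [h4] at h1
    rw [abs_le] at h1 h2 ⊢
    have h5 : (n : ℝ) / 2 ^ (l + 1) = n / 2 ^ l / 2 := by rw [pow_succ]; field_simp
    rw [h5]
    rcases Nat.even_or_odd' k with ⟨c, hc | hc⟩
    · have h6 : 2 * (k / 2) = k := by omega
      rw [h6] at h1 h2
      constructor <;> linarith
    · have h6 : 2 * (k / 2) + 1 = k := by omega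
      rw [h6] at h1 h2
      constructor <;> linarith

theorem cnt_cell (u : ℕ → ℝ) (n l k : ℕ) :
    cnt u n (((k + 1 : ℕ) : ℝ) / 2 ^ l) = cnt u n ((k : ℝ) / 2 ^ l) + cell u n l k := by
  classical
  have h2l : (0 : ℝ) < 2 ^ l := by positivity
  have hd : Disjoint ((range n).filter (fun j => Int.fract (u j) < (k : ℝ) / 2 ^ l))
      ((range n).filter (fun j => ⌊2 ^ l * Int.fract (u j)⌋₊ = k)) := by
    rw [disjoint_filter]
    intro j _ h1 h2
    rw [lt_div_iff₀ h2l] at h1
    have h3 := Nat.floor_le (show 0 ≤ 2 ^ l * Int.fract (u j) by have := Int.fract_nonneg (u j); positivity)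
    rw [h2] at h3
    linarith
  rw [cnt, cnt, cell, ← card_union_of_disjoint hd, ← filter_or]
  congr 1
  refine filter_congr (fun j _ => ?_)
  rw [lt_div_iff₀ h2l, lt_div_iff₀ h2l]
  have h0 : 0 ≤ 2 ^ l * Int.fract (u j) := by have := Int.fract_nonneg (u j); positivity
  constructor
  · intro h
    by_cases h1 : Int.fract (u j) * 2 ^ l < k
    · exact Or.inl h1
    · right
      rw [Nat.floor_eq_iff h0]
      push_cast at h
      constructor <;> linarith
  · rintro (h | h)
    · push_cast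
      linarith
    · rw [Nat.floor_eq_iff h0] at h
      push_cast
      linarith

/-- initial dyadic intervals -/
theorem cnt_dyadic (u : ℕ → ℝ) (n s : ℕ) (M : ℝ) (hM0 : 0 ≤ M)
    (hM : ∀ l < s, ∀ k < 2 ^ l, |∑ j ∈ range n, haar l k (u j)| ≤ M) :
    ∀ l ≤ s, ∀ k : ℕ, k ≤ 2 ^ l → |(cnt u n ((k : ℝ) / 2 ^ l) : ℝ) - n * ((k : ℝ) / 2 ^ l)| ≤ l * M := by
  intro l
  induction l with
  | zero =>
    intro _ k hk
    rw [pow_zero, Nat.cast_zero, zero_mul, div_one]
    have hk1 : k = 0 ∨ k = 1 := by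
      have : k ≤ 1 := by simpa using hk
      omega
    rcases hk1 with rfl | rfl
    · have h1 : cnt u n ((0 : ℕ) : ℝ) = 0 := by
        rw [cnt, card_eq_zero, filter_eq_empty_iff]
        intro j _ h
        have := Int.fract_nonneg (u j)
        push_cast at h
        linarith
      rw [h1]
      simp
    · have h1 : cnt u n ((1 : ℕ) : ℝ) = n := by
        rw [cnt, filter_true_of_mem, card_range]
        intro j _
        have := Int.fract_lt_one (u j)
        push_cast
        linarith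
      rw [h1]
      simp
  | succ l ih =>
    intro hl k hk
    have hk2 : k / 2 ≤ 2 ^ l := by
      rw [pow_succ] at hk
      omega
    have h1 := ih (by omega) (k / 2) hk2
    rcases Nat.even_or_odd' k with ⟨c, hc | hc⟩
    · have h6 : k / 2 = c := by omega
      rw [h6] at h1
      have h7 : (k : ℝ) / 2 ^ (l + 1) = (c : ℝ) / 2 ^ l := by
        rw [hc, pow_succ]
        push_cast
        field_simp
      rw [h7]
      refine h1.trans ?_
      push_cast
      linarith
    · have h6 : k / 2 = c := by omega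
      rw [h6] at h1
      have h7 : (k : ℝ) = ((2 * c + 1 : ℕ) : ℝ) := by exact_mod_cast hc
      have h8 := cnt_cell u n (l + 1) (2 * c)
      have h9 : (((2 * c : ℕ) : ℝ)) / 2 ^ (l + 1) = (c : ℝ) / 2 ^ l := by
        rw [pow_succ]
        push_cast
        field_simp
      rw [h9] at h8
      have h10 := cell_le u n s M hM0 hM (l + 1) hl (2 * c) (by omega)
      rw [h7, h8]
      push_cast
      have h11 : (n : ℝ) * ((2 * c + 1) / 2 ^ (l + 1)) = n * ((c : ℝ) / 2 ^ l) + n / 2 ^ (l + 1) := by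
        rw [pow_succ]
        field_simp
      rw [h11]
      rw [abs_le] at h1 h10 ⊢
      constructor <;> linarith

/-- initial intervals -/
theorem cnt_le (u : ℕ → ℝ) (n s : ℕ) (M : ℝ) (hM0 : 0 ≤ M)
    (hM : ∀ l < s, ∀ k < 2 ^ l, |∑ j ∈ range n, haar l k (u j)| ≤ M) (x : ℝ) (hx0 : 0 ≤ x) (hx1 : x ≤ 1) :
    |(cnt u n x : ℝ) - n * x| ≤ s * M + n / 2 ^ s := by
  have h2s : (0 : ℝ) < 2 ^ s := by positivity
  have hmono : ∀ x y : ℝ, x ≤ y → cnt u n x ≤ cnt u n y := by
    intro x y hxy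
    refine card_le_card ?_
    intro j hj
    rw [mem_filter] at hj ⊢
    exact ⟨hj.1, hj.2.trans_le hxy⟩
  have hn0 : (0 : ℝ) ≤ n := Nat.cast_nonneg n
  set k : ℕ := ⌊2 ^ s * x⌋₊ with hk
  have h0 : 0 ≤ 2 ^ s * x := by positivity
  have h1 : (k : ℝ) ≤ 2 ^ s * x := Nat.floor_le h0
  have h2 : 2 ^ s * x < k + 1 := Nat.lt_floor_add_one _
  have hks : k ≤ 2 ^ s := by
    have : (k : ℝ) ≤ 2 ^ s := by nlinarith
    exact_mod_cast this
  have h3 := cnt_dyadic u n s M hM0 hM s le_rfl k hks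
  have h4 : (k : ℝ) / 2 ^ s ≤ x := by
    rw [div_le_iff₀ h2s]
    linarith
  have h5 : ((cnt u n ((k : ℝ) / 2 ^ s) : ℕ) : ℝ) ≤ cnt u n x := by exact_mod_cast hmono _ _ h4
  have h6 : (n : ℝ) * x ≤ n * ((k : ℝ) / 2 ^ s) + n / 2 ^ s := by
    have : x ≤ (k : ℝ) / 2 ^ s + 1 / 2 ^ s := by
      rw [← add_div, le_div_iff₀ h2s]
      linarith
    calc (n : ℝ) * x ≤ n * ((k : ℝ) / 2 ^ s + 1 / 2 ^ s) := mul_le_mul_of_nonneg_left this hn0
      _ = _ := by ring
  have h6' : (n : ℝ) * ((k : ℝ) / 2 ^ s) ≤ n * x := mul_le_mul_of_nonneg_left h4 hn0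
  rcases hks.eq_or_lt with h7 | h7
  · have h8 : (k : ℝ) / 2 ^ s = 1 := by
      rw [h7]
      push_cast
      field_simp
    rw [h8] at h3 h4 h5
    have hx : x = 1 := le_antisymm hx1 h4
    rw [hx]
    refine h3.trans ?_
    have : 0 ≤ (n : ℝ) / 2 ^ s := by positivity
    linarith
  · have h9 := cnt_dyadic u n s M hM0 hM s le_rfl (k + 1) h7
    have h10 : x ≤ ((k + 1 : ℕ) : ℝ) / 2 ^ s := by
      rw [le_div_iff₀ h2s]
      push_cast
      linarith
    have h11 : ((cnt u n x : ℕ) : ℝ) ≤ cnt u n (((k + 1 : ℕ) : ℝ) / 2 ^ s) := by exact_mod_cast hmono _ _ h10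
    have h12 : (n : ℝ) * (((k + 1 : ℕ) : ℝ) / 2 ^ s) = n * ((k : ℝ) / 2 ^ s) + n / 2 ^ s := by
      push_cast
      ring
    rw [h12] at h9
    rw [abs_le] at h3 h9 ⊢
    constructor <;> linarith

/-- **the discrepancy from the Haar sums** -/
theorem disc_le (u : ℕ → ℝ) (n s : ℕ) (M : ℝ) (hM0 : 0 ≤ M)
    (hM : ∀ l < s, ∀ k < 2 ^ l, |∑ j ∈ range n, haar l k (u j)| ≤ M) (a b : ℝ) (ha : 0 ≤ a) (hab : a ≤ b) (hb : b ≤ 1) :
    |(((range n).filter (fun j => a ≤ Int.fract (u j) ∧ Int.fract (u j) < b)).card : ℝ) - n * (b - a)| ≤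
      2 * (s * M + n / 2 ^ s) := by
  classical
  have h1 : cnt u n b = cnt u n a + ((range n).filter (fun j => a ≤ Int.fract (u j) ∧ Int.fract (u j) < b)).card := by
    have hd : Disjoint ((range n).filter (fun j => Int.fract (u j) < a))
        ((range n).filter (fun j => a ≤ Int.fract (u j) ∧ Int.fract (u j) < b)) := by
      rw [disjoint_filter]
      intro j _ h1 h2
      linarith [h2.1]
    rw [cnt, cnt, ← card_union_of_disjoint hd, ← filter_or]
    congr 1
    refine filter_congr (fun j _ => ?_)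
    constructor
    · intro h
      by_cases h2 : Int.fract (u j) < a
      · exact Or.inl h2
      · exact Or.inr ⟨not_lt.1 h2, h⟩
    · rintro (h | h)
      · exact h.trans_le hab
      · exact h.2
  have h2 := cnt_le u n s M hM0 hM a ha (hab.trans hb)
  have h3 := cnt_le u n s M hM0 hM b (ha.trans hab) hb
  have h4 : (cnt u n b : ℝ) = cnt u n a +
      ((range n).filter (fun j => a ≤ Int.fract (u j) ∧ Int.fract (u j) < b)).card := by exact_mod_cast h1
  rw [abs_le] at h2 h3 ⊢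
  constructor <;> linarith

end Pool.Agent.Helper65.LD
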