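import Pool.Agent.Helper41.LD.Defs
import Pool.Agent.Helper65.LD.Haar

/-!
# LD, block F: from Haar sums to the discrepancy
-/

namespace Pool.Agent.Helper65.LD.F

open Pool.Agent.Helper41.LD

theorem ind_eq (k i : ℕ) (t : ℝ) : ind k i t = if ⌊2 ^ k * Int.fract t⌋₊ = i then 1 else 0 := by
  have h0 : 0 ≤ (2 : ℝ) ^ k * Int.fract t := by have := Int.fract_nonneg t; positivity
  have h1 : ⌊(2 : ℝ) ^ k * Int.fract t⌋ = (i : ℤ) ↔ ⌊(2 : ℝ) ^ k * Int.fract t⌋₊ = i := by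
    rw [← Int.natCast_floor_eq_floor h0]
    exact Int.natCast_inj
  rw [ind]
  by_cases h : ⌊(2 : ℝ) ^ k * Int.fract t⌋₊ = i
  · rw [if_pos h, if_pos (h1.2 h)]
  · rw [if_neg h, if_neg (fun h2 => h (h1.1 h2))]

theorem haar_eq (k i : ℕ) (t : ℝ) : Pool.Agent.Helper41.LD.haar k i t = Pool.Agent.Helper65.LD.haar k i t := by
  rw [Pool.Agent.Helper41.LD.haar, ind_eq, ind_eq, Pool.Agent.Helper65.LD.haar]
  by_cases h : ⌊(2 : ℝ) ^ (k + 1) * Int.fract t⌋₊ = 2 * i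
  · have h2 : ¬ ⌊(2 : ℝ) ^ (k + 1) * Int.fract t⌋₊ = 2 * i + 1 := by omega
    rw [if_pos h, if_neg h2, if_pos h, sub_zero]
  · rw [if_neg h, if_neg h]
    split_ifs <;> ring

theorem disc_of_haar (t : ℕ → ℝ) (n K : ℕ) {E : ℝ} (hE : 0 ≤ E)
    (h : ∀ k < K, ∀ i < 2 ^ k, |∑ j ∈ Finset.range n, Pool.Agent.Helper41.LD.haar k i (t j)| ≤ E) :
    DiscLe t n (2 * (K + 1) * E + 2 * (n * (1 / 2) ^ K)) := by
  intro α β hα hαβ hβ
  have h1 := Pool.Agent.Helper65.LD.disc_le t n K E hE (fun l hl k hk => by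
    have h2 := h l hl k hk
    simp only [haar_eq] at h2
    exact h2) α β hα hαβ hβ
  refine h1.trans ?_
  have h3 : (n : ℝ) * (1 / 2) ^ K = n / 2 ^ K := by
    rw [one_div, inv_pow, div_eq_mul_inv]
  rw [h3]
  have h4 : (0 : ℝ) ≤ K := Nat.cast_nonneg K
  nlinarith

end Pool.Agent.Helper65.LD.F
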