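import Pool.Agent.Helper65.LD.Count

/-!
# Windows without points of bad approximation (for the powers)
-/

open Set

namespace Pool.Agent.Helper65.LD

/-- no point of the window is a root of `Q x^d = P` up to `η`, for all degrees `≤ R` and coefficients `≤ 2^R` -/
def DioW (R : ℕ) (η a ℓ : ℝ) : Prop :=
  ∀ d Q : ℕ, 1 ≤ d → d ≤ R → 1 ≤ Q → Q ≤ 2 ^ R → ∀ P : ℤ, ∀ x ∈ Icc a (a + ℓ), η ≤ |Q * x ^ d - P|

theorem DioW.mono {R : ℕ} {η a ℓ a' ℓ' : ℝ} (h : DioW R η a ℓ) (ha : a ≤ a') (hℓ : a' + ℓ' ≤ a + ℓ) : DioW R η a' ℓ' :=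
  fun d Q hd hdR hQ hQR P x hx => h d Q hd hdR hQ hQR P x ⟨ha.trans hx.1, hx.2.trans hℓ⟩

theorem sub_le_pow_sub {x z : ℝ} (hx : 1 ≤ x) (hz : 0 ≤ z) {d : ℕ} (hd : 1 ≤ d) : |x - z| ≤ |x ^ d - z ^ d| := by
  rw [← geom_sum₂_mul x z d, abs_mul]
  refine le_mul_of_one_le_left (abs_nonneg _) ?_
  have h1 : x ^ (d - 1) * z ^ (d - 1 - (d - 1)) ≤ ∑ i ∈ Finset.range d, x ^ i * z ^ (d - 1 - i) :=
    Finset.single_le_sum (f := fun i => x ^ i * z ^ (d - 1 - i)) (fun i _ => by positivity)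
      (Finset.mem_range.2 (by omega))
  rw [Nat.sub_self, pow_zero, mul_one] at h1
  have h2 : 1 ≤ x ^ (d - 1) := one_le_pow₀ hx
  exact (h2.trans h1).trans (le_abs_self _)

theorem pow_sub_le {u v M δ : ℝ} (hu : |u| ≤ M) (hv : |v| ≤ M) (hM : 1 ≤ M) (h : |u - v| ≤ δ) {n R : ℕ} (hn : n ≤ R) :
    |u ^ n - v ^ n| ≤ R * M ^ R * δ := by
  have h1 := abs_pow_sub_pow_le u v n
  refine h1.trans ?_
  have h2 : max |u| |v| ^ (n - 1) ≤ M ^ R := by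
    calc max |u| |v| ^ (n - 1) ≤ M ^ (n - 1) := pow_le_pow_left₀ (le_max_of_le_left (abs_nonneg _)) (max_le hu hv) _
      _ ≤ M ^ R := pow_le_pow_right₀ hM (by omega)
  have h3 : (n : ℝ) ≤ R := by exact_mod_cast hn
  have hδ : 0 ≤ δ := (abs_nonneg _).trans h
  calc |u - v| * n * max |u| |v| ^ (n - 1) ≤ δ * R * M ^ R := by gcongr
    _ = R * M ^ R * δ := by ring

/-- two bad points of a short window have the same centre -/
theorem centre_eq {R : ℕ} {X a ℓ : ℝ} (ha : 1 ≤ a) (hX : a + ℓ ≤ X) (hs : (64 * X) ^ (R ^ 2) * ℓ < 1)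
    {d Q d' Q' : ℕ} (hd : 1 ≤ d) (hdR : d ≤ R) (hQ : 1 ≤ Q) (hQR : Q ≤ 2 ^ R) (hd' : 1 ≤ d') (hdR' : d' ≤ R) (hQ' : 1 ≤ Q')
    (hQR' : Q' ≤ 2 ^ R) {P P' : ℤ} {x x' : ℝ} (hx : x ∈ Icc a (a + ℓ)) (hx' : x' ∈ Icc a (a + ℓ))
    (h : |Q * x ^ d - P| ≤ ℓ) (h' : |Q' * x' ^ d' - P'| ≤ ℓ) :
    ((P : ℝ) / Q) ^ d' = ((P' : ℝ) / Q') ^ d := by
  have hℓ : 0 ≤ ℓ := (abs_nonneg _).trans h
  have hX1 : 1 ≤ X := by linarith [hx.1, hx.2]
  have hR : 1 ≤ R := hd.trans hdR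
  have hQ0 : (0 : ℝ) < Q := by exact_mod_cast hQ
  have hQ0' : (0 : ℝ) < Q' := by exact_mod_cast hQ'
  have hR2 : R ≤ R ^ 2 := Nat.le_self_pow (by norm_num) R
  have hXR : 1 ≤ X ^ R := one_le_pow₀ hX1
  have hbase : (1 : ℝ) ≤ 64 * X := by linarith
  have hℓ1 : ℓ ≤ 1 := by
    have h1 : 1 ≤ (64 * X) ^ (R ^ 2) := one_le_pow₀ hbase
    have h2 : 1 * ℓ ≤ (64 * X) ^ (R ^ 2) * ℓ := mul_le_mul_of_nonneg_right h1 hℓ
    linarith
  -- the general bounds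
  have key : ∀ {d Q : ℕ} {P : ℤ} {x : ℝ}, 1 ≤ d → d ≤ R → (1 : ℝ) ≤ Q → x ∈ Icc a (a + ℓ) → |Q * x ^ d - P| ≤ ℓ →
      |x ^ d| ≤ 2 * X ^ R ∧ |(P : ℝ) / Q| ≤ 2 * X ^ R ∧ |x ^ d - P / Q| ≤ ℓ := by
    intro d Q P x hd hdR hQ hx h
    have hQ0 : (0 : ℝ) < Q := by linarith
    have hx0 : 1 ≤ x := ha.trans hx.1
    have hxX : x ≤ X := hx.2.trans hX
    have h1 : x ^ d ≤ X ^ R := by
      calc x ^ d ≤ X ^ d := pow_le_pow_left₀ (by linarith) hxX d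
        _ ≤ X ^ R := pow_le_pow_right₀ hX1 hdR
    have h2 : |x ^ d| = x ^ d := abs_of_nonneg (by positivity)
    have h3 : |x ^ d - P / Q| ≤ ℓ := by
      have e : x ^ d - P / Q = (Q * x ^ d - P) / Q := by field_simp
      rw [e, abs_div, abs_of_pos hQ0, div_le_iff₀ hQ0]
      exact h.trans (le_mul_of_one_le_right hℓ hQ)
    refine ⟨by rw [h2]; linarith, ?_, h3⟩
    have h4 : |(P : ℝ) / Q| ≤ |x ^ d| + |x ^ d - P / Q| := by
      have := abs_sub (x ^ d) (x ^ d - P / Q)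
      rwa [sub_sub_cancel] at this
    rw [h2] at h4
    linarith
  obtain ⟨k1, k2, k3⟩ := key hd hdR (by exact_mod_cast hQ) hx h
  obtain ⟨l1, l2, l3⟩ := key hd' hdR' (by exact_mod_cast hQ') hx' h'
  have hM : (1 : ℝ) ≤ 2 * X ^ R := by linarith
  have m1 := pow_sub_le k1 k2 hM k3 hdR'
  have m2 := pow_sub_le l1 l2 hM l3 hdR
  have hxx : |x - x'| ≤ ℓ := by
    rw [abs_le]
    constructor <;> linarith [hx.1, hx.2, hx'.1, hx'.2]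
  have m3 : |x ^ (d * d') - x' ^ (d * d')| ≤ (R ^ 2 : ℕ) * X ^ (R ^ 2) * ℓ := by
    refine pow_sub_le ?_ ?_ hX1 hxx ?_
    · rw [abs_of_nonneg (by linarith [hx.1])]
      exact hx.2.trans hX
    · rw [abs_of_nonneg (by linarith [hx'.1])]
      exact hx'.2.trans hX
    · rw [sq]
      exact Nat.mul_le_mul hdR hdR'
  have e1 : (x ^ d) ^ d' = x ^ (d * d') := (pow_mul _ _ _).symm
  have e2 : (x' ^ d') ^ d = x' ^ (d * d') := by rw [← pow_mul, mul_comm]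
  rw [e1] at m1
  rw [e2] at m2
  have m4 : |((P : ℝ) / Q) ^ d' - ((P' : ℝ) / Q') ^ d| ≤ R * (2 * X ^ R) ^ R * ℓ + (R ^ 2 : ℕ) * X ^ (R ^ 2) * ℓ +
      R * (2 * X ^ R) ^ R * ℓ := by
    have h1 : ((P : ℝ) / Q) ^ d' - ((P' : ℝ) / Q') ^ d = -(x ^ (d * d') - ((P : ℝ) / Q) ^ d') +
        (x ^ (d * d') - x' ^ (d * d')) + (x' ^ (d * d') - ((P' : ℝ) / Q') ^ d) := by ring
    rw [h1]
    refine (abs_add_three _ _ _).trans ?_
    rw [abs_neg]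
    linarith
  have hpow2 : ∀ n : ℕ, (n : ℝ) ≤ 2 ^ n := by
    intro n
    have : n < 2 ^ n := Nat.lt_two_pow_self
    have h2 : ((n : ℕ) : ℝ) < ((2 ^ n : ℕ) : ℝ) := by exact_mod_cast this
    push_cast at h2
    exact h2.le
  have n1 : (R : ℝ) * (2 * X ^ R) ^ R ≤ (4 * X) ^ (R ^ 2) := by
    have h1 : (R : ℝ) ≤ 2 ^ (R ^ 2) := (hpow2 R).trans (pow_le_pow_right₀ (by norm_num) hR2)
    have h2 : (2 * X ^ R) ^ R ≤ (2 * X) ^ (R ^ 2) := by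
      rw [mul_pow, mul_pow, ← pow_mul, ← sq]
      exact mul_le_mul_of_nonneg_right (pow_le_pow_right₀ (by norm_num) hR2) (by positivity)
    calc (R : ℝ) * (2 * X ^ R) ^ R ≤ 2 ^ (R ^ 2) * (2 * X) ^ (R ^ 2) := mul_le_mul h1 h2 (by positivity) (by positivity)
      _ = (4 * X) ^ (R ^ 2) := by rw [← mul_pow]; ring
  have n2 : ((R ^ 2 : ℕ) : ℝ) * X ^ (R ^ 2) ≤ (4 * X) ^ (R ^ 2) := by
    calc ((R ^ 2 : ℕ) : ℝ) * X ^ (R ^ 2) ≤ 2 ^ (R ^ 2) * X ^ (R ^ 2) := mul_le_mul_of_nonneg_right (hpow2 _) (by positivity)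
      _ = (2 * X) ^ (R ^ 2) := (mul_pow _ _ _).symm
      _ ≤ (4 * X) ^ (R ^ 2) := pow_le_pow_left₀ (by positivity) (by linarith) _
  have m5 : |((P : ℝ) / Q) ^ d' - ((P' : ℝ) / Q') ^ d| ≤ 3 * ((4 * X) ^ (R ^ 2) * ℓ) := by
    refine m4.trans ?_
    have h1 := mul_le_mul_of_nonneg_right n1 hℓ
    have h2 := mul_le_mul_of_nonneg_right n2 hℓ
    linarith
  -- an integer of absolute value less than one
  set N : ℤ := P ^ d' * (Q' : ℤ) ^ d - P' ^ d * (Q : ℤ) ^ d' with hN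
  have hNr : (N : ℝ) = ((Q : ℝ) ^ d' * (Q' : ℝ) ^ d) * (((P : ℝ) / Q) ^ d' - ((P' : ℝ) / Q') ^ d) := by
    rw [hN]
    push_cast
    rw [div_pow, div_pow]
    field_simp
  have hQb : (Q : ℝ) ^ d' * (Q' : ℝ) ^ d ≤ 4 ^ (R ^ 2) := by
    have h1 : (Q : ℝ) ≤ 2 ^ R := by exact_mod_cast hQR
    have h2 : (Q' : ℝ) ≤ 2 ^ R := by exact_mod_cast hQR'
    have h3 : (Q : ℝ) ^ d' ≤ 2 ^ (R ^ 2) := by
      calc (Q : ℝ) ^ d' ≤ (2 ^ R) ^ d' := pow_le_pow_left₀ hQ0.le h1 _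
        _ ≤ (2 ^ R) ^ R := pow_le_pow_right₀ (one_le_pow₀ (by norm_num)) hdR'
        _ = 2 ^ (R ^ 2) := by rw [← pow_mul, sq]
    have h4 : (Q' : ℝ) ^ d ≤ 2 ^ (R ^ 2) := by
      calc (Q' : ℝ) ^ d ≤ (2 ^ R) ^ d := pow_le_pow_left₀ hQ0'.le h2 _
        _ ≤ (2 ^ R) ^ R := pow_le_pow_right₀ (one_le_pow₀ (by norm_num)) hdR
        _ = 2 ^ (R ^ 2) := by rw [← pow_mul, sq]
    calc (Q : ℝ) ^ d' * (Q' : ℝ) ^ d ≤ 2 ^ (R ^ 2) * 2 ^ (R ^ 2) := mul_le_mul h3 h4 (by positivity) (by positivity)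
      _ = 4 ^ (R ^ 2) := by rw [← mul_pow]; norm_num
  have hN1 : |(N : ℝ)| < 1 := by
    rw [hNr, abs_mul, abs_of_pos (by positivity)]
    have hR21 : 1 ≤ R ^ 2 := hR.trans hR2
    have h3 : (3 : ℝ) ≤ 4 ^ (R ^ 2) := by
      calc (3 : ℝ) ≤ 4 ^ 1 := by norm_num
        _ ≤ 4 ^ (R ^ 2) := pow_le_pow_right₀ (by norm_num) hR21
    calc (Q : ℝ) ^ d' * (Q' : ℝ) ^ d * |((P : ℝ) / Q) ^ d' - ((P' : ℝ) / Q') ^ d| ≤
        4 ^ (R ^ 2) * (3 * ((4 * X) ^ (R ^ 2) * ℓ)) := mul_le_mul hQb m5 (abs_nonneg _) (by positivity)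
      _ ≤ 4 ^ (R ^ 2) * (4 ^ (R ^ 2) * ((4 * X) ^ (R ^ 2) * ℓ)) := by gcongr
      _ = (64 * X) ^ (R ^ 2) * ℓ := by
          rw [← mul_assoc, ← mul_assoc, ← mul_pow, ← mul_pow]
          ring
      _ < 1 := hs
  have hN0 : N = 0 := by
    have h1 : |N| < 1 := by exact_mod_cast hN1
    exact Int.abs_lt_one_iff.1 h1
  rw [hN0, Int.cast_zero] at hNr
  have h1 : ((P : ℝ) / Q) ^ d' - ((P' : ℝ) / Q') ^ d = 0 := by
    rcases mul_eq_zero.1 hNr.symm with h | h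
    · exact absurd h (by positivity)
    · exact h
  linarith

open Classical in
/-- **the step.** At most four children contain a bad point. -/
theorem dio_step (R : ℕ) {X a ℓ : ℝ} (ha : 1 ≤ a) (hX : a + ℓ ≤ X) (hℓ : 0 < ℓ) (hs : (64 * X) ^ (R ^ 2) * ℓ < 1) {B : ℕ} (hB : 1 ≤ B) :
    ((Finset.range B).filter fun b : ℕ => ¬ DioW R (ℓ / B) (a + b * (ℓ / B)) (ℓ / B)).card ≤ 4 := by
  have hB0 : (0 : ℝ) < B := by exact_mod_cast hB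
  have hB1 : (1 : ℝ) ≤ B := by exact_mod_cast hB
  set η : ℝ := ℓ / B with hη
  have hη0 : 0 < η := by positivity
  have hηℓ : η ≤ ℓ := div_le_self hℓ.le hB1
  have hX1 : 1 ≤ X := by linarith
  have hℓ1 : ℓ < 1 := by
    have h1 : 1 ≤ (64 * X) ^ (R ^ 2) := one_le_pow₀ (by linarith)
    have h2 : 1 * ℓ ≤ (64 * X) ^ (R ^ 2) * ℓ := mul_le_mul_of_nonneg_right h1 hℓ.le
    linarith
  set S := (Finset.range B).filter fun b : ℕ => ¬ DioW R η (a + b * η) η with hS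
  rcases S.eq_empty_or_nonempty with h0 | ⟨b0, hb0⟩
  · rw [h0]
    simp
  have hin : ∀ b : ℕ, b < B → ∀ x ∈ Icc (a + b * η) (a + b * η + η), x ∈ Icc a (a + ℓ) := by
    intro b hb x hx
    have hb' : ((b + 1 : ℕ) : ℝ) ≤ B := by exact_mod_cast hb
    have h1 : 0 ≤ (b : ℝ) * η := by positivity
    have h3 : ((b + 1 : ℕ) : ℝ) * η ≤ B * η := mul_le_mul_of_nonneg_right hb' hη0.le
    have h4 : (B : ℝ) * η = ℓ := by rw [hη, mul_div_cancel₀ _ hB0.ne']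
    push_cast at h3
    exact ⟨by linarith [hx.1], by linarith [hx.2]⟩
  have hex : ∀ b ∈ S, b < B ∧ ∃ d Q : ℕ, 1 ≤ d ∧ d ≤ R ∧ 1 ≤ Q ∧ Q ≤ 2 ^ R ∧ ∃ P : ℤ, ∃ x ∈ Icc (a + b * η) (a + b * η + η),
      |Q * x ^ d - P| < η := by
    intro b hb
    obtain ⟨h1, h2⟩ := Finset.mem_filter.1 hb
    refine ⟨Finset.mem_range.1 h1, ?_⟩
    by_contra hcon
    apply h2
    intro d Q hd hdR hQ hQR P x hx
    by_contra h3
    exact hcon ⟨d, Q, hd, hdR, hQ, hQR, P, x, hx, not_le.1 h3⟩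
  obtain ⟨hb0B, d0, Q0, hd0, hd0R, hQ0, hQ0R, P0, x0, hx0, hlt0⟩ := hex b0 hb0
  have hpos : ∀ {d Q : ℕ} {P : ℤ} {x : ℝ}, 1 ≤ Q → 1 ≤ x → |Q * x ^ d - P| < η → 0 < (P : ℝ) / Q := by
    intro d Q P x hQ hx h
    have hQ1 : (1 : ℝ) ≤ Q := by exact_mod_cast hQ
    have h1 : 1 ≤ (Q : ℝ) * x ^ d := one_le_mul_of_one_le_of_one_le hQ1 (one_le_pow₀ hx)
    have h2 := (abs_lt.1 h).2
    exact div_pos (by linarith) (by linarith)
  have hx0I := hin b0 hb0B x0 hx0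
  set y0 : ℝ := (P0 : ℝ) / Q0 with hy0
  have hy0p : 0 < y0 := hpos hQ0 (ha.trans hx0I.1) hlt0
  set z : ℝ := y0 ^ ((d0 : ℝ)⁻¹) with hz
  have hz0 : 0 ≤ z := Real.rpow_nonneg hy0p.le _
  have hzd : z ^ d0 = y0 := Real.rpow_inv_natCast_pow hy0p.le (by omega)
  have hnear : ∀ b ∈ S, (z - a) / η - 2 < ((b : ℤ) : ℝ) ∧ ((b : ℤ) : ℝ) < (z - a) / η + 1 := by
    intro b hb
    obtain ⟨hbB, d, Q, hd, hdR, hQ, hQR, P, x, hx, hlt⟩ := hex b hb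
    have hxI := hin b hbB x hx
    have h1 := centre_eq ha hX hs hd0 hd0R hQ0 hQ0R hd hdR hQ hQR hx0I hxI (hlt0.le.trans hηℓ) (hlt.le.trans hηℓ)
    have hyp : 0 < (P : ℝ) / Q := hpos hQ (ha.trans hxI.1) hlt
    have h2 : (z ^ d) ^ d0 = ((P : ℝ) / Q) ^ d0 := by
      rw [← h1, ← pow_mul, mul_comm d d0, pow_mul, hzd]
    have h3 : z ^ d = (P : ℝ) / Q := (pow_left_inj₀ (by positivity) hyp.le (by omega)).1 h2
    have hQ1 : (1 : ℝ) ≤ Q := by exact_mod_cast hQ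
    have h4 : |x - z| < η := by
      have h5 := sub_le_pow_sub (ha.trans hxI.1) hz0 hd
      have h6 : |x ^ d - z ^ d| ≤ |Q * x ^ d - P| := by
        have e : Q * x ^ d - P = Q * (x ^ d - z ^ d) := by
          rw [h3]
          field_simp
        rw [e, abs_mul, abs_of_nonneg (show (0 : ℝ) ≤ Q by linarith)]
        exact le_mul_of_one_le_left (abs_nonneg _) hQ1
      linarith
    obtain ⟨h5, h6⟩ := abs_lt.1 h4
    have h7 : ((b : ℤ) : ℝ) = (b : ℝ) := by push_cast; rfl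
    rw [h7]
    constructor
    · have h8 : (z - a) / η - 2 = (z - a - 2 * η) / η := by field_simp
      rw [h8, div_lt_iff₀ hη0]
      linarith [hx.2]
    · have h8 : (z - a) / η + 1 = (z - a + η) / η := by field_simp
      rw [h8, lt_div_iff₀ hη0]
      linarith [hx.1]
  have h1 : (S.image (fun b : ℕ => (b : ℤ))).card = S.card := Finset.card_image_of_injective _ Nat.cast_injective
  have h2 := card_int_le ((z - a) / η - 2) ((z - a) / η + 1) (by linarith) (S.image (fun b : ℕ => (b : ℤ))) (by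
    intro n hn
    obtain ⟨b, hb, rfl⟩ := Finset.mem_image.1 hn
    exact hnear b hb)
  rw [h1] at h2
  have h3 : (S.card : ℝ) ≤ 4 := by linarith
  exact_mod_cast h3

end Pool.Agent.Helper65.LD
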