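import Pool.Agent.Helper34.LD.WA
import Pool.Agent.Helper5.LD.GA
import Pool.Agent.Helper65.LD.Cov

/-!
# LD, block GB: correlation of the increments with one Haar function at one time
-/

namespace Pool.Agent.Helper65.LD.GB

open Pool.Agent.Helper41.LD Pool.Agent.Helper34.LD Pool.Agent.Helper5.LD

variable {θ : ℝ} {c : ℕ → ℝ}

theorem pow_big {K n L r Q₀ : ℕ} {ε : ℝ} (P : Par θ K n L r Q₀ ε) {ℓ : ℝ} (hw : Win θ n ℓ) {j m : ℕ} (hj : n + m ≤ j) :
    θ ^ m ≤ θ ^ j * ℓ := by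
  have hθ := P.hθ
  have h0 : (0 : ℝ) < θ := by linarith
  have hℓ : 0 < ℓ := by
    have := hw.1
    by_contra h
    have : θ ^ n * ℓ ≤ 0 := mul_nonpos_of_nonneg_of_nonpos (by positivity) (not_lt.1 h)
    linarith
  obtain ⟨e, rfl⟩ := Nat.exists_eq_add_of_le hj
  have h1 : θ ^ (n + m + e) * ℓ = θ ^ m * (θ ^ e * (θ ^ n * ℓ)) := by ring
  rw [h1]
  have h2 : (1 : ℝ) ≤ θ ^ e := one_le_pow₀ hθ.le
  have h3 : (1 : ℝ) ≤ θ ^ e * (θ ^ n * ℓ) := one_le_mul_of_one_le_of_one_le h2 hw.1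
  exact le_mul_of_one_le_right (by positivity) h3

theorem Tstar {K n L r Q₀ : ℕ} {ε : ℝ} (P : Par θ K n L r Q₀ ε) {a ℓ : ℝ} (hw : Win θ n ℓ) (k i k' i' : ℕ) {j : ℕ}
    (hj : j ≠ n + L - r) :
    |av (fun x => haar k i (u θ c j x) * haar k' i' (u θ c (n + L - r) x)) a ℓ| ≤ 6 * (1 / 2) ^ (12 * K) := by
  have hθ := P.hθ
  have h0 : (0 : ℝ) < θ := by linarith
  have hL := P.hL
  have hr1 := P.hr1
  have hℓ : 0 < ℓ := by
    have := hw.1
    by_contra h
    have : θ ^ n * ℓ ≤ 0 := mul_nonpos_of_nonneg_of_nonpos (by positivity) (not_lt.1 h)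
    linarith
  set t : ℕ := n + L - r with ht
  set y : ℝ := (1 / 2) ^ (12 * K) with hy
  have hy0 : 0 < y := by positivity
  have hpos : ∀ m : ℕ, (0 : ℝ) < θ ^ m := fun m => by positivity
  have hx : ∀ m : ℕ, r ≤ m → 1 / θ ^ m ≤ y := by
    intro m hm
    have h1 : (2 : ℝ) ^ (12 * K) ≤ θ ^ m := P.hr.trans (pow_le_pow_right₀ hθ.le hm)
    rw [hy, one_div_pow]
    exact one_div_le_one_div_of_le (by positivity) h1
  have hxl : ∀ m j : ℕ, r ≤ m → n + m ≤ j → 1 / (θ ^ j * ℓ) ≤ y := by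
    intro m j hm hj
    exact (one_div_le_one_div_of_le (hpos m) (pow_big P hw hj)).trans (hx m hm)
  have hxd : ∀ s f : ℕ, s + r ≤ f → θ ^ s / θ ^ f ≤ y := by
    intro s f hsf
    obtain ⟨e, rfl⟩ := Nat.exists_eq_add_of_le hsf
    have h1 : θ ^ s / θ ^ (s + r + e) = 1 / θ ^ (r + e) := by
      rw [add_assoc, pow_add θ s]
      field_simp
    rw [h1]
    exact hx _ (by omega)
  have hu : ∀ (m : ℕ) (x : ℝ), u θ c m x = θ ^ m * x + c m := fun m x => by rw [u, mul_comm]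
  have hfar : ∀ (k i k' i' : ℕ) {s f : ℕ} (_ : s + r ≤ f) (_ : n + r ≤ f),
      |∫ x in a..(a + ℓ), haar k i (u θ c s x) * haar k' i' (u θ c f x)| / ℓ ≤ 6 * y := by
    intro k i k' i' s f hsf hnf
    have h1 := pair_piece (hpos f) (hpos s) k i k' i' (c f) (c s) a (a + ℓ) (by linarith)
    simp only [← hu] at h1
    rw [div_le_iff₀ hℓ]
    refine h1.trans ?_
    have h2 := hxd s f hsf
    have h3 := hxl r f le_rfl hnf
    have h4 : 2 * (θ ^ s * (a + ℓ - a) + 2) / θ ^ f = (2 * (θ ^ s / θ ^ f) + 4 * (1 / (θ ^ f * ℓ))) * ℓ := by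
      have := (hpos f).ne'
      have := hℓ.ne'
      field_simp
      ring
    rw [h4]
    refine mul_le_mul_of_nonneg_right ?_ hℓ.le
    linarith
  have hnear : ∀ (k i k' i' : ℕ) {s f : ℕ} (_ : s < f) (_ : f ≤ s + r) (_ : n + (L - 2 * r) ≤ s),
      |∫ x in a..(a + ℓ), haar k i (u θ c s x) * haar k' i' (u θ c f x)| / ℓ ≤ 6 * y := by
    intro k i k' i' s f hsf hfs hns
    have h5 : θ ^ (L - 2 * r) ≤ θ ^ s * ℓ := pow_big P hw hns
    have h1 := pair_equi P.equi P.hε0 (d₀ := f - s) (by omega) (by omega) (hpos s) k i k' i' (c f) (c s) a (a + ℓ)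
      (by rw [add_sub_cancel_left]; exact P.hQ.trans h5)
    rw [← pow_add, show s + (f - s) = f by omega] at h1
    simp only [← hu] at h1
    rw [div_le_iff₀ hℓ]
    refine h1.trans ?_
    have h3 := hxl (L - 2 * r) s (by omega) hns
    have h4 : 2 * ε * (a + ℓ - a) + 1 / θ ^ s = (2 * ε + 1 / (θ ^ s * ℓ)) * ℓ := by
      have := (hpos s).ne'
      have := hℓ.ne'
      field_simp
      ring
    rw [h4]
    refine mul_le_mul_of_nonneg_right ?_ hℓ.le
    have := P.hε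
    rw [← hy] at this
    linarith
  rw [av, abs_div, abs_of_pos hℓ]
  rcases lt_or_gt_of_ne hj with hlt | hgt
  · rcases le_or_gt (j + r) t with h1 | h1
    · exact hfar k i k' i' h1 (by omega)
    · exact hnear k i k' i' hlt (by omega) (by omega)
  · have hcomm : ∫ x in a..(a + ℓ), haar k i (u θ c j x) * haar k' i' (u θ c t x) =
        ∫ x in a..(a + ℓ), haar k' i' (u θ c t x) * haar k i (u θ c j x) := by
      refine intervalIntegral.integral_congr (fun x _ => ?_)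
      exact mul_comm _ _
    rw [hcomm]
    rcases le_or_gt (t + r) j with h1 | h1
    · exact hfar k' i' k i h1 (by omega)
    · exact hnear k' i' k i hgt (by omega) (by omega)

theorem Tsame {K n L r Q₀ : ℕ} {ε : ℝ} (P : Par θ K n L r Q₀ ε) {a ℓ : ℝ} (hw : Win θ n ℓ) {k i k' i' : ℕ}
    (hi : i < 2 ^ k) (hi' : i' < 2 ^ k') :
    |av (fun x => haar k i (u θ c (n + L - r) x) * haar k' i' (u θ c (n + L - r) x)) a ℓ -
      (if k = k' ∧ i = i' then (1 / 2) ^ k else 0)| ≤ 2 * (1 / 2) ^ (12 * K) := by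
  have hθ := P.hθ
  have h0 : (0 : ℝ) < θ := by linarith
  have hL := P.hL
  have hr1 := P.hr1
  have hℓ : 0 < ℓ := by
    have := hw.1
    by_contra h
    have : θ ^ n * ℓ ≤ 0 := mul_nonpos_of_nonneg_of_nonpos (by positivity) (not_lt.1 h)
    linarith
  set t : ℕ := n + L - r with ht
  have hpos : ∀ m : ℕ, (0 : ℝ) < θ ^ m := fun m => by positivity
  have hu : ∀ (m : ℕ) (x : ℝ), u θ c m x = θ ^ m * x + c m := fun m x => by rw [u, mul_comm]
  have h1 := pair_same (hpos t) hi hi' (c t) a (a + ℓ) (by linarith)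
  simp only [← hu] at h1
  have h2 : av (fun x => haar k i (u θ c t x) * haar k' i' (u θ c t x)) a ℓ - (if k = k' ∧ i = i' then (1 / 2) ^ k else 0) =
      ((∫ x in a..(a + ℓ), haar k i (u θ c t x) * haar k' i' (u θ c t x)) -
        (a + ℓ - a) * (if k = k' ∧ i = i' then (1 / 2) ^ k else 0)) / ℓ := by
    rw [av, add_sub_cancel_left, sub_div, mul_div_cancel_left₀ _ hℓ.ne']
  rw [h2, abs_div, abs_of_pos hℓ, div_le_iff₀ hℓ]
  refine h1.trans ?_
  have h3 : 1 / (θ ^ t * ℓ) ≤ (1 / 2) ^ (12 * K) := by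
    refine (one_div_le_one_div_of_le (hpos r) (pow_big P hw (m := r) (by omega))).trans ?_
    rw [one_div_pow]
    exact one_div_le_one_div_of_le (by positivity) P.hr
  have h4 : 2 / θ ^ t = 2 * (1 / (θ ^ t * ℓ)) * ℓ := by
    have := (hpos t).ne'
    have := hℓ.ne'
    field_simp
  rw [h4]
  refine mul_le_mul_of_nonneg_right ?_ hℓ.le
  linarith

theorem pair_corr {K n L r Q₀ : ℕ} {ε : ℝ} (P : Par θ K n L r Q₀ ε) {a ℓ : ℝ} (hw : Win θ n ℓ) {B : ℕ} (hB : 1 ≤ B)
    (hw' : Win θ (n + L) (ℓ / B)) {k i k' i' : ℕ} (_hk : k < K) (hi : i < 2 ^ k) (hk' : k' < K) (hi' : i' < 2 ^ k') :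
    |(∑ b ∈ Finset.range B, (M θ c k i (a + b * (ℓ / B)) (ℓ / B) - M θ c k i a ℓ) *
        A θ c k' i' (n + L - r) (a + b * (ℓ / B)) (ℓ / B)) / B -
      (if k = k' ∧ i = i' then (1 / 2) ^ k else 0)| ≤ (1 / 2) ^ (4 * K) := by
  have hθ := P.hθ
  have h0 : (0 : ℝ) < θ := by linarith
  have hL := P.hL
  have hr1 := P.hr1
  have hℓ : 0 < ℓ := by
    have := hw.1
    by_contra h
    have : θ ^ n * ℓ ≤ 0 := mul_nonpos_of_nonneg_of_nonpos (by positivity) (not_lt.1 h)
    linarith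
  have hB0 : (0 : ℝ) < B := by exact_mod_cast hB
  have hℓB : 0 < ℓ / B := by positivity
  have hpos : ∀ m : ℕ, (0 : ℝ) < θ ^ m := fun m => by positivity
  set t : ℕ := n + L - r with ht
  set m : ℕ := n + L + r with hm
  set y : ℝ := (1 / 2) ^ (12 * K) with hy
  have hy0 : 0 < y := by positivity
  set z : ℝ := 2 ^ K with hz
  have hz2 : 2 ≤ z := by
    calc (2 : ℝ) = 2 ^ 1 := by norm_num
      _ ≤ 2 ^ K := pow_le_pow_right₀ (by norm_num) P.hK
  have hKz : (K : ℝ) ≤ z := by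
    have : K < 2 ^ K := Nat.lt_two_pow_self
    have h2 : ((K : ℕ) : ℝ) < ((2 ^ K : ℕ) : ℝ) := by exact_mod_cast this
    push_cast at h2
    exact h2.le
  have hxr : 1 / θ ^ r ≤ y := by
    rw [hy, one_div_pow]
    exact one_div_le_one_div_of_le (by positivity) P.hr
  set δ : ℝ := if k = k' ∧ i = i' then (1 / 2) ^ k else 0 with hδ
  set e0 : ℝ := 2 * (2 ^ (k' + 1) * θ ^ t * ℓ + 1) / B with he0
  -- the bound for e0
  have hBL : 1 / (B : ℝ) ≤ 2 * y := by
    have h1 : θ ^ L ≤ 2 * B := by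
      have h2 := hw'.2
      have h3 : θ ^ L ≤ θ ^ (n + L) * ℓ := pow_big P hw le_rfl
      have h4 : θ ^ (n + L) * (ℓ / B) = θ ^ (n + L) * ℓ / B := by ring
      rw [h4, div_le_iff₀ hB0] at h2
      linarith
    have h2 : 1 / θ ^ L ≤ y := by
      refine (one_div_le_one_div_of_le (hpos r) (pow_le_pow_right₀ hθ.le (by omega))).trans hxr
    have h3 : 1 / (2 * (B : ℝ)) ≤ 1 / θ ^ L := one_div_le_one_div_of_le (hpos L) h1
    have h4 : 1 / (B : ℝ) = 2 * (1 / (2 * (B : ℝ))) := by field_simp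
    rw [h4]
    linarith
  have htB : θ ^ t * ℓ / B ≤ 2 * y := by
    have h2 := hw'.2
    have h3 : θ ^ t * ℓ / B = θ ^ (n + L) * (ℓ / B) * (1 / θ ^ r) := by
      have h4 : θ ^ (n + L) = θ ^ t * θ ^ r := by
        rw [← pow_add]
        congr 1
        omega
      rw [h4]
      have := (hpos r).ne'
      field_simp
    rw [h3]
    exact mul_le_mul h2 hxr (by positivity) (by norm_num)
  have he0b : e0 ≤ 8 * z * y := by
    have h1 : (2 : ℝ) ^ (k' + 1) ≤ z := pow_le_pow_right₀ (by norm_num) hk'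
    have h2 : e0 = 2 * (2 ^ (k' + 1) * (θ ^ t * ℓ / B)) + 2 * (1 / B) := by
      rw [he0]
      field_simp
    have h3 : 2 ^ (k' + 1) * (θ ^ t * ℓ / B) ≤ z * (2 * y) :=
      mul_le_mul h1 htB (by have := hpos t; positivity) (by positivity)
    rw [h2]
    nlinarith
  -- the tails
  have hAt : ∀ b : ℕ, |A θ c k' i' t (a + b * (ℓ / B)) (ℓ / B)| ≤ 1 := fun b => A_le_one k' i' t hℓB
  have hsplit : (∑ b ∈ Finset.range B, (M θ c k i (a + b * (ℓ / B)) (ℓ / B) - M θ c k i a ℓ) *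
        A θ c k' i' t (a + b * (ℓ / B)) (ℓ / B)) / B =
      (∑ j ∈ Finset.range m, (∑ b ∈ Finset.range B, A θ c k i j (a + b * (ℓ / B)) (ℓ / B) *
        A θ c k' i' t (a + b * (ℓ / B)) (ℓ / B)) / B) +
      (∑ b ∈ Finset.range B, (M θ c k i (a + b * (ℓ / B)) (ℓ / B) -
        ∑ j ∈ Finset.range m, A θ c k i j (a + b * (ℓ / B)) (ℓ / B)) * A θ c k' i' t (a + b * (ℓ / B)) (ℓ / B)) / B -
      M θ c k i a ℓ * A θ c k' i' t a ℓ := by
    have h1 := A_children (θ := θ) (c := c) k' i' t a hℓ hB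
    have h2 : M θ c k i a ℓ * A θ c k' i' t a ℓ =
        (∑ b ∈ Finset.range B, M θ c k i a ℓ * A θ c k' i' t (a + b * (ℓ / B)) (ℓ / B)) / B := by
      rw [← Finset.mul_sum, h1]
      field_simp
    rw [h2, ← Finset.sum_div, ← add_div, ← sub_div, Finset.sum_comm, ← Finset.sum_add_distrib, ← Finset.sum_sub_distrib]
    congr 1
    refine Finset.sum_congr rfl (fun b _ => ?_)
    rw [← Finset.sum_mul]
    ring
  have hR : |(∑ b ∈ Finset.range B, (M θ c k i (a + b * (ℓ / B)) (ℓ / B) -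
        ∑ j ∈ Finset.range m, A θ c k i j (a + b * (ℓ / B)) (ℓ / B)) * A θ c k' i' t (a + b * (ℓ / B)) (ℓ / B)) / B| ≤ K * y := by
    rw [abs_div, abs_of_pos hB0, div_le_iff₀ hB0]
    refine (Finset.abs_sum_le_sum_abs _ _).trans ?_
    calc ∑ b ∈ Finset.range B, |(M θ c k i (a + b * (ℓ / B)) (ℓ / B) -
        ∑ j ∈ Finset.range m, A θ c k i j (a + b * (ℓ / B)) (ℓ / B)) * A θ c k' i' t (a + b * (ℓ / B)) (ℓ / B)| ≤
          ∑ b ∈ Finset.range B, (K : ℝ) * y := by
          refine Finset.sum_le_sum (fun b _ => ?_)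
          rw [abs_mul]
          have h1 := M_tail (c := c) hθ k i (n := n + L) (m := m) (by omega) (a := a + b * (ℓ / B)) hw'.1
          have h2 : (1 / 2 : ℝ) ^ k * θ⁻¹ ^ (m - (n + L)) * (θ / (θ - 1)) ≤ K * y := by
            have h3 : m - (n + L) = r := by omega
            rw [h3]
            have h4 : θ⁻¹ ^ r ≤ y := by
              rw [inv_pow, ← one_div]
              exact hxr
            have h5 : (1 / 2 : ℝ) ^ k ≤ 1 := pow_le_one₀ (by norm_num) (by norm_num)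
            have h6 := P.hC
            have h7 : 0 < θ / (θ - 1) := div_pos h0 (by linarith)
            calc (1 / 2 : ℝ) ^ k * θ⁻¹ ^ r * (θ / (θ - 1)) ≤ 1 * y * K := by gcongr
              _ = K * y := by ring
          calc |M θ c k i (a + b * (ℓ / B)) (ℓ / B) - ∑ j ∈ Finset.range m, A θ c k i j (a + b * (ℓ / B)) (ℓ / B)| *
                |A θ c k' i' t (a + b * (ℓ / B)) (ℓ / B)| ≤ (K * y) * 1 :=
                mul_le_mul (h1.trans h2) (hAt b) (abs_nonneg _) (by positivity)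
            _ = K * y := mul_one _
      _ = K * y * B := by rw [Finset.sum_const, Finset.card_range, nsmul_eq_mul]; ring
  have hn' : (n : ℝ) + L + r ≤ z ^ 2 := by
    have h1 := P.hn
    have h2 : ((n + L + r : ℕ) : ℝ) ≤ ((2 ^ (2 * K) : ℕ) : ℝ) := by exact_mod_cast h1
    push_cast at h2
    rw [hz, ← pow_mul, mul_comm K 2]
    exact h2
  have hMA : |M θ c k i a ℓ * A θ c k' i' t a ℓ| ≤ (z ^ 2 + K) * y := by
    rw [abs_mul]
    have h1 := M_le (c := c) hθ k i (a := a) hw.1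
    have h2 := A_le (c := c) hθ k' i' (n := n) (j := t) (by omega) (a := a) hw.1
    have h3 : (1 / 2 : ℝ) ^ k' * θ⁻¹ ^ (t - n) ≤ y := by
      have h4 : (1 / 2 : ℝ) ^ k' ≤ 1 := pow_le_one₀ (by norm_num) (by norm_num)
      have h5 : θ⁻¹ ^ (t - n) ≤ y := by
        rw [inv_pow, ← one_div]
        exact (one_div_le_one_div_of_le (hpos r) (pow_le_pow_right₀ hθ.le (by omega))).trans hxr
      calc (1 / 2 : ℝ) ^ k' * θ⁻¹ ^ (t - n) ≤ 1 * y := by gcongr
        _ = y := one_mul y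
    have h6 := P.hC
    have h7 : (0 : ℝ) ≤ L := Nat.cast_nonneg L
    have h8 : (0 : ℝ) ≤ r := Nat.cast_nonneg r
    exact mul_le_mul (by linarith) (h2.trans h3) (abs_nonneg _) (by positivity)
  -- the main sum
  have hmain : |(∑ j ∈ Finset.range m, (∑ b ∈ Finset.range B, A θ c k i j (a + b * (ℓ / B)) (ℓ / B) *
        A θ c k' i' t (a + b * (ℓ / B)) (ℓ / B)) / B) - δ| ≤ m * (8 * z * y + 6 * y) := by
    have htm : t ∈ Finset.range m := Finset.mem_range.2 (by omega)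
    have h1 : δ = ∑ j ∈ Finset.range m, (if j = t then δ else 0) := by
      rw [Finset.sum_ite_eq' (Finset.range m) t (fun _ => δ), if_pos htm]
    have h2 : (∑ j ∈ Finset.range m, (∑ b ∈ Finset.range B, A θ c k i j (a + b * (ℓ / B)) (ℓ / B) *
        A θ c k' i' t (a + b * (ℓ / B)) (ℓ / B)) / B) - δ =
        ∑ j ∈ Finset.range m, ((∑ b ∈ Finset.range B, A θ c k i j (a + b * (ℓ / B)) (ℓ / B) *
        A θ c k' i' t (a + b * (ℓ / B)) (ℓ / B)) / B - (if j = t then δ else 0)) := by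
      rw [Finset.sum_sub_distrib, ← h1]
    rw [h2]
    refine (Finset.abs_sum_le_sum_abs _ _).trans ?_
    calc ∑ j ∈ Finset.range m, |(∑ b ∈ Finset.range B, A θ c k i j (a + b * (ℓ / B)) (ℓ / B) *
        A θ c k' i' t (a + b * (ℓ / B)) (ℓ / B)) / B - (if j = t then δ else 0)| ≤
          ∑ j ∈ Finset.range m, (8 * z * y + 6 * y) := by
          refine Finset.sum_le_sum (fun j _ => ?_)
          have h3 := cov_err (c := c) h0 k i k' i' j t a hℓ hB
          rw [← he0] at h3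
          have h4 : |av (fun x => haar k i (u θ c j x) * haar k' i' (u θ c t x)) a ℓ - (if j = t then δ else 0)| ≤ 6 * y := by
            by_cases hjt : j = t
            · rw [if_pos hjt, hjt]
              refine (Tsame P hw hi hi').trans ?_
              rw [← hy]
              linarith
            · rw [if_neg hjt, sub_zero]
              exact Tstar P hw k i k' i' hjt
          refine (abs_sub_le _ (av (fun x => haar k i (u θ c j x) * haar k' i' (u θ c t x)) a ℓ) _).trans ?_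
          linarith
      _ = m * (8 * z * y + 6 * y) := by rw [Finset.sum_const, Finset.card_range, nsmul_eq_mul]
  have hmz : (m : ℝ) ≤ z ^ 2 := by
    rw [hm]
    push_cast
    exact hn'
  have hyz : y * z ^ 12 = 1 := by
    rw [hy, hz, ← pow_mul, mul_comm K 12, ← mul_pow]
    norm_num
  have h4z : (1 / 2 : ℝ) ^ (4 * K) = y * z ^ 8 := by
    have h1 : (1 / 2 : ℝ) ^ (4 * K) * z ^ 4 = 1 := by
      rw [hz, ← pow_mul, mul_comm K 4, ← mul_pow]
      norm_num
    have h2 : (0 : ℝ) < z ^ 4 := by positivity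
    have h3 : y * z ^ 8 * z ^ 4 = 1 := by
      rw [mul_assoc, ← pow_add]
      exact hyz
    exact mul_right_cancel₀ h2.ne' (h1.trans h3.symm)
  rw [hsplit]
  have hfin : m * (8 * z * y + 6 * y) + K * y + (z ^ 2 + K) * y ≤ (1 / 2) ^ (4 * K) := by
    rw [h4z]
    have h1 : (m : ℝ) * (8 * z * y + 6 * y) ≤ z ^ 2 * (8 * z * y + 6 * y) := mul_le_mul_of_nonneg_right hmz (by positivity)
    have h2 : (K : ℝ) * y ≤ z * y := mul_le_mul_of_nonneg_right hKz hy0.le
    have h3 : z ^ 2 * (8 * z * y + 6 * y) + z * y + (z ^ 2 + z) * y = y * (8 * z ^ 3 + 7 * z ^ 2 + 2 * z) := by ring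
    have h4 : 8 * z ^ 3 + 7 * z ^ 2 + 2 * z ≤ z ^ 8 := by
      have h5 : (8 : ℝ) ≤ z ^ 3 := by
        calc (8 : ℝ) = 2 ^ 3 := by norm_num
          _ ≤ z ^ 3 := pow_le_pow_left₀ (by norm_num) hz2 3
      have h6 : (0 : ℝ) < z := by linarith
      have h7 : 8 * z ^ 3 ≤ z ^ 3 * z ^ 3 := mul_le_mul_of_nonneg_right h5 (by positivity)
      have h8 : z ^ 3 * z ^ 3 * 4 ≤ z ^ 8 := by
        have : z ^ 8 = z ^ 3 * z ^ 3 * z ^ 2 := by ring
        rw [this]
        have h4 : (4 : ℝ) ≤ z ^ 2 := by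
          calc (4 : ℝ) = 2 ^ 2 := by norm_num
            _ ≤ z ^ 2 := pow_le_pow_left₀ (by norm_num) hz2 2
        exact mul_le_mul_of_nonneg_left h4 (by positivity)
      have h64 : (64 : ℝ) ≤ z ^ 3 * z ^ 3 := by
        calc (64 : ℝ) = 8 * 8 := by norm_num
          _ ≤ z ^ 3 * z ^ 3 := mul_le_mul h5 h5 (by norm_num) (by positivity)
      have h9 : 7 * z ^ 2 ≤ z ^ 8 / 4 := by
        have : z ^ 8 = z ^ 2 * (z ^ 3 * z ^ 3) := by ring
        rw [this]
        have h10 : 28 * z ^ 2 ≤ z ^ 2 * (z ^ 3 * z ^ 3) := by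
          rw [mul_comm (28 : ℝ)]
          exact mul_le_mul_of_nonneg_left (by linarith) (by positivity)
        linarith
      have h10 : 2 * z ≤ z ^ 8 / 4 := by
        have : z ^ 8 = z * (z * z ^ 3 * z ^ 3) := by ring
        rw [this]
        have h11 : 8 * z ≤ z * (z * z ^ 3 * z ^ 3) := by
          rw [mul_comm (8 : ℝ)]
          refine mul_le_mul_of_nonneg_left ?_ (by positivity)
          calc (8 : ℝ) ≤ 1 * 8 * 1 := by norm_num
            _ ≤ z * z ^ 3 * z ^ 3 := by gcongr <;> linarith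
        linarith
      linarith
    have h5 := mul_le_mul_of_nonneg_left h4 hy0.le
    linarith
  refine le_trans ?_ hfin
  set S1 := ∑ j ∈ Finset.range m, (∑ b ∈ Finset.range B, A θ c k i j (a + b * (ℓ / B)) (ℓ / B) *
        A θ c k' i' t (a + b * (ℓ / B)) (ℓ / B)) / B
  set S2 := (∑ b ∈ Finset.range B, (M θ c k i (a + b * (ℓ / B)) (ℓ / B) -
        ∑ j ∈ Finset.range m, A θ c k i j (a + b * (ℓ / B)) (ℓ / B)) * A θ c k' i' t (a + b * (ℓ / B)) (ℓ / B)) / B
  set S3 := M θ c k i a ℓ * A θ c k' i' t a ℓ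
  have h1 : S1 + S2 - S3 - δ = (S1 - δ) + S2 - S3 := by ring
  rw [h1]
  calc |(S1 - δ) + S2 - S3| ≤ |(S1 - δ) + S2| + |S3| := abs_sub _ _
    _ ≤ |S1 - δ| + |S2| + |S3| := by
        have := abs_add_le (S1 - δ) S2
        linarith
    _ ≤ _ := by linarith

end Pool.Agent.Helper65.LD.GB
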