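import Mathlib

/-!
# Multiples of a number close to a rational one: distribution modulo one
-/

open Finset

namespace Pool.Agent.Helper65.LD

theorem card_int_le (u v : ℝ) (huv : u ≤ v) (S : Finset ℤ) (hS : ∀ n ∈ S, u < n ∧ (n : ℝ) < v) :
    (S.card : ℝ) ≤ v - u + 1 := by
  rcases S.eq_empty_or_nonempty with h | ⟨n0, hn0⟩
  · rw [h]
    simp only [card_empty, Nat.cast_zero]
    linarith
  have h1 : S ⊆ Ioo ⌊u⌋ ⌈v⌉ := by
    intro n hn
    obtain ⟨h2, h3⟩ := hS n hn
    rw [mem_Ioo]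
    exact ⟨Int.floor_lt.2 h2, Int.lt_ceil.2 h3⟩
  have h2 := card_le_card h1
  rw [Int.card_Ioo] at h2
  have h3 : ⌊u⌋ < ⌈v⌉ - 0 := by
    obtain ⟨h4, h5⟩ := mem_Ioo.1 (h1 hn0)
    omega
  have h4 : ((⌈v⌉ - ⌊u⌋ - 1).toNat : ℝ) = (⌈v⌉ : ℝ) - ⌊u⌋ - 1 := by
    have h5 : ((⌈v⌉ - ⌊u⌋ - 1).toNat : ℤ) = ⌈v⌉ - ⌊u⌋ - 1 := Int.toNat_of_nonneg (by omega)
    have h6 : (((⌈v⌉ - ⌊u⌋ - 1).toNat : ℤ) : ℝ) = ((⌈v⌉ - ⌊u⌋ - 1 : ℤ) : ℝ) := by rw [h5]
    push_cast at h6
    exact h6
  have h5 : (S.card : ℝ) ≤ ((⌈v⌉ - ⌊u⌋ - 1).toNat : ℝ) := by exact_mod_cast h2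
  have h6 := Int.ceil_lt_add_one v
  have h7 := Int.sub_one_lt_floor u
  linarith

/-- upper bound for the number of multiples in an initial interval -/
theorem count_upper (q : ℕ) (hq : 0 < q) (p : ℤ) (hpq : IsCoprime p (q : ℤ)) (α : ℝ)
    (hα : |q * α - p| ≤ 1 / q) (x w : ℝ) (hw : 0 ≤ w) :
    (((range q).filter (fun k : ℕ => Int.fract (x + k * α) < w)).card : ℝ) ≤ q * w + 3 := by
  have hq' : (0 : ℝ) < q := by exact_mod_cast hq
  set φ : ℕ → ℤ := fun k => (k : ℤ) * p - q * ⌊x + k * α⌋ with hφ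
  have hinj : Set.InjOn φ ((range q).filter (fun k : ℕ => Int.fract (x + k * α) < w) : Finset ℕ) := by
    intro k hk k' hk' he
    simp only [coe_filter, mem_range, Set.mem_ofPred_eq] at hk hk'
    simp only [hφ] at he
    have h1 : (q : ℤ) ∣ ((k : ℤ) - k') * p := ⟨⌊x + k * α⌋ - ⌊x + k' * α⌋, by linarith⟩
    have h2 : (q : ℤ) ∣ (k : ℤ) - k' := (hpq.symm).dvd_of_dvd_mul_right h1
    have h3 : (k : ℤ) - k' = 0 := by
      refine Int.eq_zero_of_abs_lt_dvd h2 ?_
      rw [abs_lt]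
      constructor <;> omega
    omega
  have h1 := card_image_of_injOn hinj
  rw [← h1]
  refine (card_int_le (-(q * x) - 1) (-(q * x) + q * w + 1) (by nlinarith [mul_nonneg hq'.le hw]) _ ?_).trans ?_
  · intro n hn
    obtain ⟨k, hk, rfl⟩ := mem_image.1 hn
    obtain ⟨hk1, hk2⟩ := mem_filter.1 hk
    rw [mem_range] at hk1
    have hkq : (k : ℝ) < q := by exact_mod_cast hk1
    have h3 : |(k : ℝ) * (q * α - p)| < 1 := by
      rw [abs_mul, abs_of_nonneg (Nat.cast_nonneg k)]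
      calc (k : ℝ) * |q * α - p| ≤ k * (1 / q) := mul_le_mul_of_nonneg_left hα (Nat.cast_nonneg k)
        _ < 1 := by rw [mul_one_div, div_lt_one hq']; exact hkq
    obtain ⟨h4, h5⟩ := abs_lt.1 h3
    have h6 := Int.fract_nonneg (x + k * α)
    have h7 : ((φ k : ℤ) : ℝ) = q * Int.fract (x + k * α) - q * x - k * (q * α - p) := by
      simp only [hφ]
      push_cast
      rw [Int.fract]
      ring
    rw [h7]
    have h8 : (q : ℝ) * Int.fract (x + k * α) < q * w := mul_lt_mul_of_pos_left hk2 hq'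
    have h9 : 0 ≤ (q : ℝ) * Int.fract (x + k * α) := by positivity
    constructor <;> linarith
  · linarith

/-- the number of multiples in an initial interval -/
theorem count_abs (q : ℕ) (hq : 0 < q) (p : ℤ) (hpq : IsCoprime p (q : ℤ)) (α : ℝ)
    (hα : |q * α - p| ≤ 1 / q) (x w : ℝ) (hw : 0 ≤ w) (hw1 : w ≤ 1) :
    |(((range q).filter (fun k : ℕ => Int.fract (x + k * α) < w)).card : ℝ) - q * w| ≤ 3 := by
  have h1 := count_upper q hq p hpq α hα x w hw
  have h2 := count_upper q hq p hpq α hα (x - w) (1 - w) (by linarith)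
  have h3 : (((range q).filter (fun k : ℕ => Int.fract (x + k * α) < w)).card : ℝ) +
      (((range q).filter (fun k : ℕ => ¬ Int.fract (x + k * α) < w)).card : ℝ) = q := by
    have := Finset.card_filter_add_card_filter_not (s := range q) (fun k : ℕ => Int.fract (x + k * α) < w)
    rw [card_range] at this
    exact_mod_cast this
  have h4 : ((range q).filter (fun k : ℕ => ¬ Int.fract (x + k * α) < w)).card ≤
      ((range q).filter (fun k : ℕ => Int.fract (x - w + k * α) < 1 - w)).card := by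
    refine card_le_card ?_
    intro k hk
    obtain ⟨hk1, hk2⟩ := mem_filter.1 hk
    rw [mem_filter]
    refine ⟨hk1, ?_⟩
    rw [not_lt] at hk2
    have h5 : Int.fract (x - w + k * α) = Int.fract (x + k * α) - w := by
      rw [Int.fract_eq_iff]
      refine ⟨by linarith, by linarith [Int.fract_lt_one (x + k * α)], ⌊x + k * α⌋, ?_⟩
      rw [Int.fract]
      ring
    rw [h5]
    linarith [Int.fract_lt_one (x + k * α)]
  have h5 : (((range q).filter (fun k : ℕ => ¬ Int.fract (x + k * α) < w)).card : ℝ) ≤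
      (((range q).filter (fun k : ℕ => Int.fract (x - w + k * α) < 1 - w)).card : ℝ) := by exact_mod_cast h4
  rw [abs_le]
  constructor <;> linarith

/-- step functions of level `s` -/
noncomputable def stepf (s : ℕ) (A : ℕ → ℝ) (x : ℝ) : ℝ := A ⌊2 ^ s * Int.fract x⌋₊

theorem stepf_abs {s : ℕ} {A : ℕ → ℝ} (hA : ∀ i, |A i| ≤ 1) (x : ℝ) : |stepf s A x| ≤ 1 := hA _

theorem stepf_periodic (s : ℕ) (A : ℕ → ℝ) : Function.Periodic (stepf s A) 1 := by
  intro x
  simp only [stepf, Int.fract_add_one]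

theorem stepf_measurable (s : ℕ) (A : ℕ → ℝ) : Measurable (stepf s A) := by
  have h1 : Measurable A := measurable_from_top
  exact h1.comp (Nat.measurable_floor.comp (measurable_const.mul measurable_fract))

theorem floor_lt_pow (s : ℕ) (x : ℝ) : ⌊2 ^ s * Int.fract x⌋₊ < 2 ^ s := by
  rw [Nat.floor_lt (by positivity)]
  push_cast
  have h1 := Int.fract_lt_one x
  have h2 : (0 : ℝ) < 2 ^ s := by positivity
  nlinarith

/-- the sum of a step function of mean zero over the multiples -/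
theorem sum_stepf (q : ℕ) (hq : 0 < q) (p : ℤ) (hpq : IsCoprime p (q : ℤ)) (α : ℝ)
    (hα : |q * α - p| ≤ 1 / q) (s : ℕ) (A : ℕ → ℝ) (hA : ∀ i, |A i| ≤ 1) (hA0 : ∑ i ∈ range (2 ^ s), A i = 0)
    (x : ℝ) : |∑ k ∈ range q, stepf s A (x + k * α)| ≤ 6 * 2 ^ s := by
  classical
  have h2s : (0 : ℝ) < 2 ^ s := by positivity
  set F : ℕ → Finset ℕ := fun i => (range q).filter (fun k : ℕ => Int.fract (x + k * α) < i / 2 ^ s) with hF
  have hFc : ∀ i, i ≤ 2 ^ s → |((F i).card : ℝ) - q * (i / 2 ^ s)| ≤ 3 := by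
    intro i hi
    refine count_abs q hq p hpq α hα x _ (by positivity) ?_
    rw [div_le_one h2s]
    exact_mod_cast hi
  have hmem : ∀ i k, k ∈ F i ↔ k < q ∧ ⌊2 ^ s * Int.fract (x + k * α)⌋₊ < i := by
    intro i k
    simp only [hF, mem_filter, mem_range]
    refine and_congr_right (fun _ => ?_)
    rw [Nat.floor_lt (by have := Int.fract_nonneg (x + k * α); positivity), lt_div_iff₀ h2s, mul_comm]
  have hfib : ∀ i, ((range q).filter (fun k : ℕ => ⌊2 ^ s * Int.fract (x + k * α)⌋₊ = i)) = F (i + 1) \ F i := by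
    intro i
    ext k
    simp only [mem_filter, mem_range, mem_sdiff, hmem]
    constructor
    · rintro ⟨h1, h2⟩
      refine ⟨⟨h1, by omega⟩, fun h3 => by omega⟩
    · rintro ⟨⟨h1, h2⟩, h3⟩
      refine ⟨h1, ?_⟩
      by_contra h4
      exact h3 ⟨h1, by omega⟩
  have hsub : ∀ i, F i ⊆ F (i + 1) := by
    intro i k hk
    rw [hmem] at hk ⊢
    exact ⟨hk.1, by omega⟩
  have h1 : ∑ k ∈ range q, stepf s A (x + k * α) =
      ∑ i ∈ range (2 ^ s), A i * (((F (i + 1)).card : ℝ) - (F i).card) := by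
    have h2 := Finset.sum_fiberwise_of_maps_to (s := range q) (t := range (2 ^ s))
      (g := fun k : ℕ => ⌊2 ^ s * Int.fract (x + k * α)⌋₊) (fun k _ => mem_range.2 (floor_lt_pow s _))
      (fun k : ℕ => stepf s A (x + k * α))
    rw [← h2]
    refine sum_congr rfl (fun i _ => ?_)
    rw [hfib i]
    have h3 : ∀ k ∈ F (i + 1) \ F i, stepf s A (x + k * α) = A i := by
      intro k hk
      rw [← hfib i, mem_filter] at hk
      rw [stepf, hk.2]
    rw [sum_congr rfl h3, sum_const, nsmul_eq_mul, card_sdiff_of_subset (hsub i),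
      Nat.cast_sub (card_le_card (hsub i)), mul_comm]
  rw [h1]
  have h4 : ∑ i ∈ range (2 ^ s), A i * (((F (i + 1)).card : ℝ) - (F i).card) =
      ∑ i ∈ range (2 ^ s), A i * ((((F (i + 1)).card : ℝ) - q * ((i + 1 : ℕ) / 2 ^ s)) -
        (((F i).card : ℝ) - q * (i / 2 ^ s))) := by
    have h5 : ∑ i ∈ range (2 ^ s), A i * (((F (i + 1)).card : ℝ) - (F i).card) -
      ∑ i ∈ range (2 ^ s), A i * ((((F (i + 1)).card : ℝ) - q * ((i + 1 : ℕ) / 2 ^ s)) -
        (((F i).card : ℝ) - q * (i / 2 ^ s))) = (∑ i ∈ range (2 ^ s), A i) * (q / 2 ^ s) := by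
      rw [← sum_sub_distrib, sum_mul]
      refine sum_congr rfl (fun i _ => ?_)
      push_cast
      field_simp
      ring
    rw [hA0, zero_mul] at h5
    linarith
  rw [h4]
  refine (abs_sum_le_sum_abs _ _).trans ?_
  calc ∑ i ∈ range (2 ^ s), |A i * ((((F (i + 1)).card : ℝ) - q * ((i + 1 : ℕ) / 2 ^ s)) -
        (((F i).card : ℝ) - q * (i / 2 ^ s)))| ≤ ∑ i ∈ range (2 ^ s), (6 : ℝ) := by
        refine sum_le_sum (fun i hi => ?_)
        rw [mem_range] at hi
        rw [abs_mul]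
        have h6 := hFc (i + 1) (by omega)
        have h7 := hFc i (by omega)
        have h8 := abs_sub (((F (i + 1)).card : ℝ) - q * ((i + 1 : ℕ) / 2 ^ s)) (((F i).card : ℝ) - q * (i / 2 ^ s))
        calc |A i| * |(((F (i + 1)).card : ℝ) - q * ((i + 1 : ℕ) / 2 ^ s)) - (((F i).card : ℝ) - q * (i / 2 ^ s))| ≤ 1 * 6 := by
              refine mul_le_mul (hA i) ?_ (abs_nonneg _) zero_le_one
              linarith
          _ = 6 := by norm_num
    _ = 6 * 2 ^ s := by
        rw [sum_const, card_range, nsmul_eq_mul]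
        push_cast
        ring

end Pool.Agent.Helper65.LD
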