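import Pool.Agent.Helper65.LD.Count

/-!
# Integrals of a periodic function against a dilated one: close scales and far scales
-/

open Finset MeasureTheory intervalIntegral

namespace Pool.Agent.Helper65.LD

theorem ii {F : ℝ → ℝ} (hF : Measurable F) {C : ℝ} (hb : ∀ x, |F x| ≤ C) (a b : ℝ) :
    IntervalIntegrable F volume a b := by
  rw [intervalIntegrable_iff]
  refine Measure.integrableOn_of_bounded (M := C) ?_ hF.aestronglyMeasurable (Filter.Eventually.of_forall hb)
  exact (measure_mono Set.uIoc_subset_uIcc).trans_lt isCompact_uIcc.measure_lt_top |>.ne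

/-- one block of `q` periods -/
theorem near_block (q : ℕ) (α : ℝ) (f G : ℝ → ℝ) (hf : Function.Periodic f 1) (hfm : Measurable f)
    (hf1 : ∀ x, |f x| ≤ 1) (hGm : Measurable G) (hG1 : ∀ x, |G x| ≤ 1) (B : ℝ)
    (hB : ∀ x, |∑ k ∈ range q, G (x + k * α)| ≤ B) (a c : ℝ) :
    |∫ v in a..(a + q), f v * G (α * v + c)| ≤ B := by
  have hm : ∀ k : ℕ, Measurable (fun v => f (v + k) * G (α * (v + k) + c)) := by
    intro k
    exact (hfm.comp (measurable_id.add_const _)).mul
      (hGm.comp (((measurable_id.add_const _).const_mul α).add_const c))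
  have hb : ∀ k : ℕ, ∀ v, |f (v + k) * G (α * (v + k) + c)| ≤ 1 := by
    intro k v
    rw [abs_mul]
    calc |f (v + k)| * |G (α * (v + k) + c)| ≤ 1 * 1 := mul_le_mul (hf1 _) (hG1 _) (abs_nonneg _) zero_le_one
      _ = 1 := one_mul 1
  have h1 : ∫ v in a..(a + q), f v * G (α * v + c) =
      ∑ k ∈ range q, ∫ v in (a + k)..(a + (k + 1 : ℕ)), f v * G (α * v + c) := by
    rw [sum_integral_adjacent_intervals (a := fun k : ℕ => a + k)]
    · simp
    · intro k _
      have := ii (hm 0) (hb 0) (a + k) (a + (k + 1 : ℕ))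
      simpa using this
  have h2 : ∀ k : ℕ, ∫ v in (a + k)..(a + (k + 1 : ℕ)), f v * G (α * v + c) =
      ∫ v in a..(a + 1), f v * G (α * v + c + k * α) := by
    intro k
    have h3 := intervalIntegral.integral_comp_add_right (a := a) (b := a + 1) (fun v => f v * G (α * v + c)) (k : ℝ)
    rw [show a + ((k + 1 : ℕ) : ℝ) = a + 1 + k by push_cast; ring, ← h3]
    refine intervalIntegral.integral_congr (fun v _ => ?_)
    have h4 : f (v + k) = f v := by
      have := hf.nat_mul k v
      simpa using this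
    simp only [h4]
    congr 2
    ring
  rw [h1, sum_congr rfl (fun k _ => h2 k), ← intervalIntegral.integral_finsetSum]
  · have h3 : ∀ v : ℝ, ‖∑ k ∈ range q, f v * G (α * v + c + k * α)‖ ≤ B := by
      intro v
      rw [← mul_sum, Real.norm_eq_abs, abs_mul]
      have hB0 : 0 ≤ B := (abs_nonneg _).trans (hB 0)
      calc |f v| * |∑ k ∈ range q, G (α * v + c + k * α)| ≤ 1 * B :=
            mul_le_mul (hf1 v) (hB _) (abs_nonneg _) zero_le_one
        _ = B := one_mul B
    have h4 := intervalIntegral.norm_integral_le_of_norm_le_const (a := a) (b := a + 1) (fun v _ => h3 v)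
    simpa using h4
  · intro k _
    refine ii (C := 1) ?_ ?_ _ _
    · exact hfm.mul (hGm.comp (((measurable_id.const_mul α).add_const c).add_const _))
    · intro v
      rw [abs_mul]
      calc |f v| * |G (α * v + c + k * α)| ≤ 1 * 1 := mul_le_mul (hf1 _) (hG1 _) (abs_nonneg _) zero_le_one
        _ = 1 := one_mul 1

/-- **close scales.** -/
theorem near (q : ℕ) (hq : 0 < q) (α : ℝ) (f G : ℝ → ℝ) (hf : Function.Periodic f 1) (hfm : Measurable f)
    (hf1 : ∀ x, |f x| ≤ 1) (hGm : Measurable G) (hG1 : ∀ x, |G x| ≤ 1) (B : ℝ)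
    (hB : ∀ x, |∑ k ∈ range q, G (x + k * α)| ≤ B) (a y c : ℝ) (hy : 0 ≤ y) :
    |∫ v in a..(a + y), f v * G (α * v + c)| ≤ y / q * B + q := by
  have hq' : (0 : ℝ) < q := by exact_mod_cast hq
  have hB0 : 0 ≤ B := (abs_nonneg _).trans (hB 0)
  have hm : Measurable (fun v => f v * G (α * v + c)) := hfm.mul (hGm.comp ((measurable_id.const_mul α).add_const c))
  have hb : ∀ v, |f v * G (α * v + c)| ≤ 1 := by
    intro v
    rw [abs_mul]
    calc |f v| * |G (α * v + c)| ≤ 1 * 1 := mul_le_mul (hf1 _) (hG1 _) (abs_nonneg _) zero_le_one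
      _ = 1 := one_mul 1
  set n : ℕ := ⌊y / q⌋₊ with hn
  have hn1 : (n : ℝ) ≤ y / q := Nat.floor_le (by positivity)
  have hn2 : y / q < n + 1 := Nat.lt_floor_add_one _
  rw [le_div_iff₀ hq'] at hn1
  rw [div_lt_iff₀ hq'] at hn2
  have h1 : ∫ v in a..(a + y), f v * G (α * v + c) =
      (∫ v in a..(a + n * q), f v * G (α * v + c)) + ∫ v in (a + n * q)..(a + y), f v * G (α * v + c) :=
    (integral_add_adjacent_intervals (ii hm hb _ _) (ii hm hb _ _)).symm
  have h2 : ∫ v in a..(a + n * q), f v * G (α * v + c) =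
      ∑ i ∈ range n, ∫ v in (a + i * q)..(a + (i + 1 : ℕ) * q), f v * G (α * v + c) := by
    rw [sum_integral_adjacent_intervals (a := fun i : ℕ => a + i * q) (fun k _ => ii hm hb _ _)]
    simp
  have h3 : |∫ v in a..(a + n * q), f v * G (α * v + c)| ≤ n * B := by
    rw [h2]
    refine (abs_sum_le_sum_abs _ _).trans ?_
    calc ∑ i ∈ range n, |∫ v in (a + i * q)..(a + (i + 1 : ℕ) * q), f v * G (α * v + c)| ≤ ∑ i ∈ range n, B := by
          refine sum_le_sum (fun i _ => ?_)
          have h4 := near_block q α f G hf hfm hf1 hGm hG1 B hB (a + i * q) c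
          rw [show a + ((i + 1 : ℕ) : ℝ) * q = a + i * q + q by push_cast; ring]
          exact h4
      _ = n * B := by rw [sum_const, card_range, nsmul_eq_mul]
  have h4 : |∫ v in (a + n * q)..(a + y), f v * G (α * v + c)| ≤ q := by
    have h5 := intervalIntegral.norm_integral_le_of_norm_le_const (a := a + n * q) (b := a + y) (C := 1)
      (f := fun v => f v * G (α * v + c)) (fun v _ => hb v)
    rw [Real.norm_eq_abs] at h5
    refine h5.trans ?_
    rw [one_mul, abs_of_nonneg (by linarith)]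
    linarith
  rw [h1]
  refine (abs_add_le _ _).trans ?_
  have h5 : (n : ℝ) * B ≤ y / q * B := by
    refine mul_le_mul_of_nonneg_right ?_ hB0
    rw [le_div_iff₀ hq']
    exact hn1
  linarith

/-- **far scales.** -/
theorem far (s : ℕ) (φ : ℤ → ℝ) (hφ : ∀ n, |φ n| ≤ 1) (G : ℝ → ℝ) (hGm : Measurable G) (hG1 : ∀ x, |G x| ≤ 1) (D : ℝ)
    (hD : ∀ a b, |∫ v in a..b, G v| ≤ D) (α : ℝ) (hα : 0 < α) (a y c : ℝ) (hy : 0 ≤ y) :
    |∫ v in a..(a + y), φ ⌊2 ^ s * v⌋ * G (α * v + c)| ≤ (2 ^ s * y + 2) * (D / α) := by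
  have h2s : (0 : ℝ) < 2 ^ s := by positivity
  have hD0 : 0 ≤ D := (abs_nonneg _).trans (hD 0 0)
  have hm : Measurable (fun v => φ ⌊2 ^ s * v⌋ * G (α * v + c)) :=
    (measurable_from_top.comp (Int.measurable_floor.comp (measurable_id.const_mul _))).mul
      (hGm.comp ((measurable_id.const_mul α).add_const c))
  have hb : ∀ v, |φ ⌊2 ^ s * v⌋ * G (α * v + c)| ≤ 1 := by
    intro v
    rw [abs_mul]
    calc |φ ⌊2 ^ s * v⌋| * |G (α * v + c)| ≤ 1 * 1 := mul_le_mul (hφ _) (hG1 _) (abs_nonneg _) zero_le_one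
      _ = 1 := one_mul 1
  set N0 : ℤ := ⌊2 ^ s * a⌋ with hN0
  set N1 : ℤ := ⌊2 ^ s * (a + y)⌋ with hN1
  have hN01 : N0 ≤ N1 := Int.floor_le_floor (by nlinarith)
  set M : ℕ := (N1 - N0 + 1).toNat with hM
  have hM' : (M : ℤ) = N1 - N0 + 1 := Int.toNat_of_nonneg (by omega)
  set t : ℕ → ℝ := fun i => min (max a ((N0 + i) / 2 ^ s)) (a + y) with ht
  have ht0 : t 0 = a := by
    simp only [ht, Nat.cast_zero, add_zero]
    rw [max_eq_left, min_eq_left (by linarith)]
    rw [div_le_iff₀ h2s, mul_comm]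
    exact Int.floor_le _
  have htM : t M = a + y := by
    simp only [ht]
    refine min_eq_right (le_max_of_le_right ?_)
    rw [le_div_iff₀ h2s, mul_comm]
    have h1 := (Int.lt_floor_add_one (2 ^ s * (a + y))).le
    have h2 : (N0 : ℝ) + M = N1 + 1 := by
      have : (N0 : ℤ) + M = N1 + 1 := by omega
      exact_mod_cast this
    rw [h2]
    exact h1
  have h1 : ∫ v in a..(a + y), φ ⌊2 ^ s * v⌋ * G (α * v + c) =
      ∑ i ∈ range M, ∫ v in (t i)..(t (i + 1)), φ ⌊2 ^ s * v⌋ * G (α * v + c) := by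
    rw [sum_integral_adjacent_intervals (a := t) (fun k _ => ii hm hb _ _), ht0, htM]
  have h2 : ∀ i, |∫ v in (t i)..(t (i + 1)), φ ⌊2 ^ s * v⌋ * G (α * v + c)| ≤ D / α := by
    intro i
    have hle : t i ≤ t (i + 1) := by
      simp only [ht]
      refine min_le_min_right _ (max_le_max_left _ ?_)
      refine div_le_div_of_nonneg_right ?_ h2s.le
      push_cast
      linarith
    have h3 : ∫ v in (t i)..(t (i + 1)), φ ⌊2 ^ s * v⌋ * G (α * v + c) =
        ∫ v in (t i)..(t (i + 1)), φ (N0 + i) * G (α * v + c) := by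
      refine integral_congr_ae ?_
      have h4 : ∀ᵐ v : ℝ, v ≠ t (i + 1) := by
        rw [ae_iff]
        simp
      filter_upwards [h4] with v hv hv2
      rw [Set.uIoc_of_le hle] at hv2
      obtain ⟨h5, h6⟩ := hv2
      have h7 : v < t (i + 1) := lt_of_le_of_ne h6 hv
      have h8 : ⌊2 ^ s * v⌋ = N0 + i := by
        rw [Int.floor_eq_iff]
        push_cast
        have h9 : v < a + y := h7.trans_le (min_le_right _ _)
        have h10 : a < v ∧ (N0 + i) / 2 ^ s < v := by
          rcases min_lt_iff.1 (show min (max a (((N0 : ℝ) + i) / 2 ^ s)) (a + y) < v from h5) with h11 | h11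
          · exact max_lt_iff.1 h11
          · linarith
        have h11 : v < max a (((N0 : ℝ) + (i + 1 : ℕ)) / 2 ^ s) := h7.trans_le (min_le_left _ _)
        have h12 : v < ((N0 : ℝ) + (i + 1 : ℕ)) / 2 ^ s := by
          rcases lt_max_iff.1 h11 with h13 | h13
          · linarith [h10.1]
          · exact h13
        have h13 := h10.2
        rw [div_lt_iff₀ h2s] at h13
        rw [lt_div_iff₀ h2s] at h12
        push_cast at h12
        constructor <;> nlinarith
      rw [h8]
    rw [h3, intervalIntegral.integral_const_mul, abs_mul]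
    have h4 : ∫ v in (t i)..(t (i + 1)), G (α * v + c) = α⁻¹ * ∫ v in (α * t i + c)..(α * t (i + 1) + c), G v := by
      rw [intervalIntegral.integral_comp_mul_add _ hα.ne', smul_eq_mul]
    rw [h4, abs_mul, abs_of_pos (inv_pos.2 hα)]
    calc |φ (N0 + i)| * (α⁻¹ * |∫ v in (α * t i + c)..(α * t (i + 1) + c), G v|) ≤ 1 * (α⁻¹ * D) := by
          refine mul_le_mul (hφ _) ?_ (by positivity) zero_le_one
          exact mul_le_mul_of_nonneg_left (hD _ _) (inv_pos.2 hα).le
      _ = D / α := by rw [one_mul, div_eq_inv_mul]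
  rw [h1]
  refine (abs_sum_le_sum_abs _ _).trans ?_
  calc ∑ i ∈ range M, |∫ v in (t i)..(t (i + 1)), φ ⌊2 ^ s * v⌋ * G (α * v + c)| ≤ ∑ i ∈ range M, D / α :=
        sum_le_sum (fun i _ => h2 i)
    _ = M * (D / α) := by rw [sum_const, card_range, nsmul_eq_mul]
    _ ≤ (2 ^ s * y + 2) * (D / α) := by
        refine mul_le_mul_of_nonneg_right ?_ (by positivity)
        have h3 : (M : ℝ) = N1 - N0 + 1 := by exact_mod_cast hM'
        rw [h3]
        have h4 := Int.floor_le (2 ^ s * (a + y))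
        have h5 := Int.lt_floor_add_one (2 ^ s * a)
        rw [← hN0] at h5
        rw [← hN1] at h4
        linarith

/-- periodic functions of mean zero have bounded primitives -/
theorem prim_bd (G : ℝ → ℝ) (hG : Function.Periodic G 1) (hGm : Measurable G) (hG1 : ∀ x, |G x| ≤ 1)
    (h0 : ∫ v in (0 : ℝ)..1, G v = 0) (a b : ℝ) : |∫ v in a..b, G v| ≤ 1 := by
  have hi : ∀ x y, IntervalIntegrable G volume x y := fun x y => ii hGm hG1 x y
  have h1 : ∀ x y : ℝ, x ≤ y → |∫ v in x..y, G v| ≤ 1 := by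
    intro x y hxy
    set n : ℕ := ⌊y - x⌋₊ with hn
    have hn1 : (n : ℝ) ≤ y - x := Nat.floor_le (by linarith)
    have hn2 : y - x < n + 1 := Nat.lt_floor_add_one _
    have h2 : ∫ v in x..(x + n), G v = 0 := by
      have h4 : ∫ v in x..(x + n), G v = ∑ i ∈ range n, ∫ v in (x + i)..(x + (i + 1 : ℕ)), G v := by
        rw [sum_integral_adjacent_intervals (a := fun i : ℕ => x + i) (fun k _ => hi _ _)]
        simp
      rw [h4]
      refine sum_eq_zero (fun i _ => ?_)
      have h5 := hG.intervalIntegral_add_eq (x + i) 0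
      rw [show x + ((i + 1 : ℕ) : ℝ) = x + i + 1 by push_cast; ring, h5, zero_add, h0]
    rw [← integral_add_adjacent_intervals (hi x (x + n)) (hi (x + n) y), h2, zero_add]
    have h5 := intervalIntegral.norm_integral_le_of_norm_le_const (a := x + n) (b := y) (C := 1)
      (f := G) (fun v _ => hG1 v)
    rw [Real.norm_eq_abs] at h5
    refine h5.trans ?_
    rw [one_mul, abs_of_nonneg (by linarith)]
    linarith
  rcases le_total a b with h | h
  · exact h1 a b h
  · rw [intervalIntegral.integral_symm, abs_neg]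
    exact h1 b a h

end Pool.Agent.Helper65.LD
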